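import Pool.Agent.H173M.Base

/-!
# Systems with a subsquare from covers with a subsquare
-/

set_option autoImplicit false

namespace Pool.Agent.H173M

open Finset
open scoped Classical

variable {κ : ℕ}

theorem SubCover.sys {X Y : Type} [Fintype X] {L : X → X → X} {C : Y → Y → Y} {s : Y → X}
    (hL : Latin L) (h : SubCover κ C L s) (hinj : Function.Injective s)
    (heq : ∀ u v, L (s u) (s v) = s (C u v)) :
    ∃ (w : Finset X × Finset X → ℕ) (f : X → X → X → X → Finset X × Finset X),
      Sys κ X L (Finset X × Finset X) w f ∧ Sub C L w f s := by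
  obtain ⟨J, _, a, b, c, d, hq, hc, h1⟩ := h
  refine ⟨fun S => ((Finset.univ : Finset J).filter
    (fun j => (({a j, c j} : Finset X), ({b j, d j} : Finset X)) = S)).card,
    fun r s r' s' => ({r, r'}, {s, s'}), ?_, ?_⟩
  · constructor
    · exact hL
    · intro r s r' s' _
      rw [Finset.pair_comm r r', Finset.pair_comm s s']
    · intro r s r' s' _
      rw [Finset.pair_comm s s']
    · intro r s r1 s1 r2 s2 h1 _ hf
      exact pair_other h1.1 (Prod.mk.inj hf).1
    · intro r s
      rw [← hc r s, Finset.card_filter]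
      have e1 : ∀ p : X × X, (if Quad L r s p.1 p.2 then ((Finset.univ : Finset J).filter
          (fun j => (({a j, c j} : Finset X), ({b j, d j} : Finset X)) =
            (({r, p.1} : Finset X), ({s, p.2} : Finset X)))).card else 0) =
          ∑ j : J, if Quad L r s p.1 p.2 ∧ (({a j, c j} : Finset X), ({b j, d j} : Finset X)) =
            (({r, p.1} : Finset X), ({s, p.2} : Finset X)) then 1 else 0 := by
        intro p
        by_cases hp : Quad L r s p.1 p.2
        · rw [if_pos hp, Finset.card_filter]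
          refine Finset.sum_congr rfl fun j _ => ?_
          by_cases hj : (({a j, c j} : Finset X), ({b j, d j} : Finset X)) =
            (({r, p.1} : Finset X), ({s, p.2} : Finset X))
          · rw [if_pos hj, if_pos ⟨hp, hj⟩]
          · rw [if_neg hj, if_neg (fun h => hj h.2)]
        · rw [if_neg hp]
          symm
          refine Finset.sum_eq_zero fun j _ => ?_
          rw [if_neg (fun h => hp h.1)]
      rw [Finset.sum_congr rfl fun p _ => e1 p, Finset.sum_comm]
      refine Finset.sum_congr rfl fun j _ => ?_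
      by_cases hj : InC r s (a j) (b j) (c j) (d j)
      · rw [if_pos hj]
        have hex : ∃ p0 : X × X, Quad L r s p0.1 p0.2 ∧
            (({a j, c j} : Finset X), ({b j, d j} : Finset X)) =
            (({r, p0.1} : Finset X), ({s, p0.2} : Finset X)) := by
          obtain ⟨h1 | h1, h2 | h2⟩ := hj
          · exact ⟨(c j, d j), by rw [h1, h2]; exact hq j, by rw [h1, h2]⟩
          · exact ⟨(c j, b j), by rw [h1, h2]; exact (hq j).col,
              by rw [h1, h2, Finset.pair_comm (b j) (d j)]⟩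
          · exact ⟨(a j, d j), by rw [h1, h2]; exact (hq j).row,
              by rw [h1, h2, Finset.pair_comm (a j) (c j)]⟩
          · exact ⟨(a j, b j), by rw [h1, h2]; exact (hq j).swap,
              by rw [h1, h2, Finset.pair_comm (a j) (c j), Finset.pair_comm (b j) (d j)]⟩
        obtain ⟨p0, h1, h2⟩ := hex
        rw [Finset.sum_eq_single p0]
        · rw [if_pos ⟨h1, h2⟩]
        · rintro p _ hp
          rw [if_neg]
          rintro ⟨h3, h4⟩
          rw [h2] at h4
          obtain ⟨h5, h6⟩ := Prod.mk.inj h4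
          exact hp (Prod.ext (pair_other h1.1 h5).symm (pair_other h1.2.1 h6).symm)
        · intro hh
          exact absurd (Finset.mem_univ _) hh
      · rw [if_neg hj]
        refine Finset.sum_eq_zero fun p _ => ?_
        rw [if_neg]
        rintro ⟨_, h4⟩
        obtain ⟨h5, h6⟩ := Prod.mk.inj h4
        apply hj
        constructor
        · have : r ∈ ({a j, c j} : Finset X) := by
            rw [h5]
            simp
          simpa using this
        · have : s ∈ ({b j, d j} : Finset X) := by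
            rw [h6]
            simp
          simpa using this
  · refine ⟨hinj, heq, fun u v u' v' hqq => ?_⟩
    rw [← h1 u v u' v' hqq]
    refine congrArg Finset.card (Finset.filter_congr fun j _ => ?_)
    rw [sameP_iff, sameP_iff, Prod.mk.injEq]

theorem SubCover.prod {X Y B : Type} [Fintype B] {L : X → X → X} {A : B → B → B}
    {C : Y → Y → Y} {s : Y → X} (h : SubCover κ C L s) (b0 : B) :
    SubCover κ C (prodL L A) (fun u => (s u, b0)) := by
  obtain ⟨J, _, a, b, c, d, hq, hc, h1⟩ := h
  refine ⟨(B × B) × J, inferInstance, fun j => (a j.2, j.1.1), fun j => (b j.2, j.1.2),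
    fun j => (c j.2, j.1.1), fun j => (d j.2, j.1.2), ?_, ?_, ?_⟩
  · rintro ⟨⟨u, v⟩, j⟩
    obtain ⟨h1, h2, h3, h4⟩ := hq j
    refine ⟨fun h => h1 (Prod.mk.inj h).1, fun h => h2 (Prod.mk.inj h).1, ?_, ?_⟩
    · simp only [prodL]
      rw [h3]
    · simp only [prodL]
      rw [h4]
  · rintro ⟨x, u⟩ ⟨y, v⟩
    rw [← hc x y]
    refine card_filter_single _ (u, v) _ ?_
    rintro ⟨u', v'⟩ j
    simp only [InC, Prod.mk.injEq]
    constructor
    · rintro ⟨h1, h2⟩
      rcases h1 with ⟨h1, h3⟩ | ⟨h1, h3⟩ <;> rcases h2 with ⟨h2, h4⟩ | ⟨h2, h4⟩ <;>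
        simp [h1, h2, h3, h4]
    · rintro ⟨⟨rfl, rfl⟩, h1, h2⟩
      exact ⟨h1.imp (fun h => ⟨h, rfl⟩) (fun h => ⟨h, rfl⟩),
        h2.imp (fun h => ⟨h, rfl⟩) (fun h => ⟨h, rfl⟩)⟩
  · intro u v u' v' hqq
    have hqL : Quad L (s u) (s v) (s u') (s v') := by
      obtain ⟨g1, g2, g3, g4⟩ := hqq
      simp only [prodL, Prod.mk.injEq] at g3 g4
      exact ⟨fun hh => g1 (congrArg (fun z => (z, b0)) hh),
        fun hh => g2 (congrArg (fun z => (z, b0)) hh), g3.1, g4.1⟩
    rw [← h1 u v u' v' hqL]
    refine card_filter_single _ (b0, b0) _ ?_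
    rintro ⟨x', y'⟩ j
    simp only [SameP, Prod.mk.injEq]
    constructor
    · rintro ⟨h1, h2⟩
      rcases h1 with ⟨⟨h1, h3⟩, h5, _⟩ | ⟨⟨h1, h3⟩, h5, _⟩ <;>
        rcases h2 with ⟨⟨h2, h4⟩, h6, _⟩ | ⟨⟨h2, h4⟩, h6, _⟩ <;>
        simp [h1, h2, h3, h4, h5, h6]
    · rintro ⟨⟨rfl, rfl⟩, h1, h2⟩
      exact ⟨h1.imp (fun h => ⟨⟨h.1, rfl⟩, h.2, rfl⟩) (fun h => ⟨⟨h.1, rfl⟩, h.2, rfl⟩),
        h2.imp (fun h => ⟨⟨h.1, rfl⟩, h.2, rfl⟩) (fun h => ⟨⟨h.1, rfl⟩, h.2, rfl⟩)⟩

/-- a latin square with a sub-cover gives almost all odd multiples with the subsquare -/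
theorem null_of_subCover {X Y : Type} [Fintype X] {L : X → X → X} {C : Y → Y → Y} {s : Y → X}
    (hX : 0 < Fintype.card X) (hL : Latin L) (h : SubCover κ C L s) (hinj : Function.Injective s)
    (heq : ∀ u v, L (s u) (s v) = s (C u v)) : Null (OddMul (Fintype.card X) \ GC κ C) := by
  obtain ⟨w, f, S, U⟩ := h.sys hL hinj heq
  exact null_sub _ X L (Finset X × Finset X) w f s hX S U rfl

end Pool.Agent.H173M
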