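import Pool.Agent.H173M.Comp

/-!
# The cover of the composed square
-/

set_option autoImplicit false

namespace Pool.Agent.H173M

open Finset
open scoped Classical

variable {κ : ℕ}

/-- a family of intercalates avoiding the corner cell and covering every other cell four times -/
def HCover (κ : ℕ) (K : Type) (P : Option K → Option K → Option K) : Prop :=
  ∃ (J : Type) (_ : Fintype J) (a b c d : J → Option K), (∀ j, Quad P (a j) (b j) (c j) (d j)) ∧
    (∀ j, ¬ InC none none (a j) (b j) (c j) (d j)) ∧
    ∀ x y, ¬ (x = none ∧ y = none) → ((Finset.univ : Finset J).filter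
      (fun j => InC x y (a j) (b j) (c j) (d j))).card = κ

section
variable {m t : ℕ} {K : Type} [NeZero m]

omit [NeZero m] in
theorem emb_ne {x : ZMod m} {h : Fin t} {o o' : Option K} (hne : o ≠ o') :
    emb x h o ≠ emb x h o' := fun he => hne (emb_inj he).1

omit [NeZero m] in
/-- position of a corner in a bordered block -/
theorem emb_pos (ht : t ≤ m) {x x' : ZMod m} {h h' : Fin t} {r r' c c' : Option K}
    (hrc : ¬ (r = none ∧ c = none)) (h1 : emb x h r = emb x' h' r')
    (h2 : emb (x + ((h : ℕ) : ZMod m)) h c = emb (x' + ((h' : ℕ) : ZMod m)) h' c') :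
    (x' = x ∧ h' = h) ∧ r = r' ∧ c = c' := by
  obtain ⟨e1, e2, e3⟩ := emb_inj h1
  obtain ⟨f1, f2, f3⟩ := emb_inj h2
  refine ⟨?_, e1, f1⟩
  by_cases hr : r = none
  · have hh := e2 hr
    have hc : c ≠ none := fun hc => hrc ⟨hr, hc⟩
    have h3 := f3 hc
    rw [hh] at h3
    exact ⟨(add_right_cancel h3).symm, hh.symm⟩
  · have hx := e3 hr
    by_cases hc : c = none
    · exact ⟨hx.symm, (f2 hc).symm⟩
    · have h3 := f3 hc
      rw [hx] at h3
      exact ⟨hx.symm, (cast_inj ht (add_left_cancel h3)).symm⟩

omit [NeZero m] in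
theorem quad_on (ht : t ≤ m) (Z : K → K → K) {P : Option K → Option K → Option K}
    (C : Fin t → Fin t → Fin t) (x : ZMod m) (h : Fin t) {a b c d : Option K}
    (hq : Quad P a b c d) (hn : ¬ InC none none a b c d) :
    Quad (comp m t Z P C) (emb x h a) (emb (x + ((h : ℕ) : ZMod m)) h b) (emb x h c)
      (emb (x + ((h : ℕ) : ZMod m)) h d) := by
  have n1 : ¬ (a = none ∧ b = none) := fun hh => hn ⟨Or.inl hh.1.symm, Or.inl hh.2.symm⟩
  have n2 : ¬ (a = none ∧ d = none) := fun hh => hn ⟨Or.inl hh.1.symm, Or.inr hh.2.symm⟩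
  have n3 : ¬ (c = none ∧ b = none) := fun hh => hn ⟨Or.inr hh.1.symm, Or.inl hh.2.symm⟩
  have n4 : ¬ (c = none ∧ d = none) := fun hh => hn ⟨Or.inr hh.1.symm, Or.inr hh.2.symm⟩
  refine ⟨emb_ne hq.1, emb_ne hq.2.1, ?_, ?_⟩
  · rw [comp_on ht Z P C x h a b n1, comp_on ht Z P C x h c d n4, hq.2.2.1]
  · rw [comp_on ht Z P C x h a d n2, comp_on ht Z P C x h c b n3, hq.2.2.2]

theorem comp_cover (ht : t ≤ m) {Z : K → K → K} {P : Option K → Option K → Option K}
    {C : Fin t → Fin t → Fin t} (hZ : Cover κ K Z) (hP : HCover κ K P) (hC : Cover κ (Fin t) C) :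
    Cover κ (Pt m t K) (comp m t Z P C) := by
  obtain ⟨JZ, _, aZ, bZ, cZ, dZ, qZ, nZ⟩ := hZ
  obtain ⟨JP, _, aP, bP, cP, dP, qP, avP, nP⟩ := hP
  obtain ⟨JC, _, aC, bC, cC, dC, qC, nC⟩ := hC
  refine ⟨((ZMod m × {d : ZMod m // ¬ d.val < t}) × JZ) ⊕ (((ZMod m × Fin t) × JP) ⊕ JC),
    inferInstance,
    Sum.elim (fun j => Sum.inl (j.1.1, aZ j.2))
      (Sum.elim (fun j => emb j.1.1 j.1.2 (aP j.2)) (fun j => Sum.inr (aC j))),
    Sum.elim (fun j => Sum.inl (j.1.1 + j.1.2.1, bZ j.2))
      (Sum.elim (fun j => emb (j.1.1 + ((j.1.2 : ℕ) : ZMod m)) j.1.2 (bP j.2))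
        (fun j => Sum.inr (bC j))),
    Sum.elim (fun j => Sum.inl (j.1.1, cZ j.2))
      (Sum.elim (fun j => emb j.1.1 j.1.2 (cP j.2)) (fun j => Sum.inr (cC j))),
    Sum.elim (fun j => Sum.inl (j.1.1 + j.1.2.1, dZ j.2))
      (Sum.elim (fun j => emb (j.1.1 + ((j.1.2 : ℕ) : ZMod m)) j.1.2 (dP j.2))
        (fun j => Sum.inr (dC j))), ?_, ?_⟩
  · rintro (⟨⟨x, ⟨d, hd⟩⟩, j⟩ | ⟨⟨x, h⟩, j⟩ | j)
    · simp only [Sum.elim_inl]
      have hv : ¬ (x + d - x).val < t := by
        rw [add_sub_cancel_left]
        exact hd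
      refine ⟨fun hh => (qZ j).1 (Prod.mk.inj (Sum.inl_injective hh)).2,
        fun hh => (qZ j).2.1 (Prod.mk.inj (Sum.inl_injective hh)).2, ?_, ?_⟩
      · rw [comp_off _ _ _ _ _ _ _ hv, comp_off _ _ _ _ _ _ _ hv, (qZ j).2.2.1]
      · rw [comp_off _ _ _ _ _ _ _ hv, comp_off _ _ _ _ _ _ _ hv, (qZ j).2.2.2]
    · simp only [Sum.elim_inl, Sum.elim_inr]
      exact quad_on ht Z C x h (qP j) (avP j)
    · simp only [Sum.elim_inr]
      refine ⟨fun hh => (qC j).1 (Sum.inr_injective hh),
        fun hh => (qC j).2.1 (Sum.inr_injective hh), ?_, ?_⟩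
      · simp only [comp]
        rw [(qC j).2.2.1]
      · simp only [comp]
        rw [(qC j).2.2.2]
  · -- counting
    have key_on : ∀ (x : ZMod m) (h : Fin t) (r c : Option K), ¬ (r = none ∧ c = none) →
        ∀ u v : Pt m t K, u = emb x h r → v = emb (x + ((h : ℕ) : ZMod m)) h c →
        ((Finset.univ : Finset (((ZMod m × {d : ZMod m // ¬ d.val < t}) × JZ) ⊕
          (((ZMod m × Fin t) × JP) ⊕ JC))).filter (fun j => InC u v
          (Sum.elim (fun j => Sum.inl (j.1.1, aZ j.2))
            (Sum.elim (fun j => emb j.1.1 j.1.2 (aP j.2)) (fun j => Sum.inr (aC j))) j)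
          (Sum.elim (fun j => Sum.inl (j.1.1 + j.1.2.1, bZ j.2))
            (Sum.elim (fun j => emb (j.1.1 + ((j.1.2 : ℕ) : ZMod m)) j.1.2 (bP j.2))
              (fun j => Sum.inr (bC j))) j)
          (Sum.elim (fun j => Sum.inl (j.1.1, cZ j.2))
            (Sum.elim (fun j => emb j.1.1 j.1.2 (cP j.2)) (fun j => Sum.inr (cC j))) j)
          (Sum.elim (fun j => Sum.inl (j.1.1 + j.1.2.1, dZ j.2))
            (Sum.elim (fun j => emb (j.1.1 + ((j.1.2 : ℕ) : ZMod m)) j.1.2 (dP j.2))
              (fun j => Sum.inr (dC j))) j))).card = κ := by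
      rintro x h r c hrc u v rfl rfl
      rw [card_filter_sum, card_filter_sum]
      rw [card_filter_none, card_filter_single _ (x, h) (fun j => InC r c (aP j) (bP j) (cP j)
        (dP j)), nP r c hrc, card_filter_none]
      · simp
      · -- hole family
        intro j hj
        simp only [Sum.elim_inr] at hj
        obtain ⟨h1, h2⟩ := hj
        apply hrc
        have hr : r = none := by
          rcases h1 with h1 | h1
          · exact (emb_inj (x' := x) (h' := aC j) (o' := none) h1).1
          · exact (emb_inj (x' := x) (h' := cC j) (o' := none) h1).1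
        have hc : c = none := by
          rcases h2 with h2 | h2
          · exact (emb_inj (x' := x) (h' := bC j) (o' := none) h2).1
          · exact (emb_inj (x' := x) (h' := dC j) (o' := none) h2).1
        exact ⟨hr, hc⟩
      · -- bordered family
        rintro ⟨x', h'⟩ j
        simp only [Sum.elim_inl, Sum.elim_inr, Prod.mk.injEq]
        constructor
        · rintro ⟨h1, h2⟩
          rcases h1 with h1 | h1 <;> rcases h2 with h2 | h2 <;>
            obtain ⟨e1, e2, e3⟩ := emb_pos ht hrc h1 h2
          · exact ⟨e1, Or.inl e2, Or.inl e3⟩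
          · exact ⟨e1, Or.inl e2, Or.inr e3⟩
          · exact ⟨e1, Or.inr e2, Or.inl e3⟩
          · exact ⟨e1, Or.inr e2, Or.inr e3⟩
        · rintro ⟨⟨rfl, rfl⟩, h1, h2⟩
          exact ⟨h1.imp (fun hh => by rw [hh]) (fun hh => by rw [hh]),
            h2.imp (fun hh => by rw [hh]) (fun hh => by rw [hh])⟩
      · -- plain family
        rintro ⟨⟨x', ⟨d, hd⟩⟩, j⟩ hj
        simp only [Sum.elim_inl] at hj
        obtain ⟨h1, h2⟩ := hj
        have hx : x = x' := by
          rcases h1 with h1 | h1
          · have := emb_inj (x' := x') (h' := h) (o' := some (aZ j)) h1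
            exact this.2.2 (by rw [this.1]; simp)
          · have := emb_inj (x' := x') (h' := h) (o' := some (cZ j)) h1
            exact this.2.2 (by rw [this.1]; simp)
        have hy : x + ((h : ℕ) : ZMod m) = x' + d := by
          rcases h2 with h2 | h2
          · have := emb_inj (x' := x' + d) (h' := h) (o' := some (bZ j)) h2
            exact this.2.2 (by rw [this.1]; simp)
          · have := emb_inj (x' := x' + d) (h' := h) (o' := some (dZ j)) h2
            exact this.2.2 (by rw [this.1]; simp)
        rw [hx] at hy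
        apply hd
        rw [← add_left_cancel hy, cast_val ht]
        exact h.isLt
    rintro (⟨x, i⟩ | h) v
    · rcases col_cases x v with ⟨h, c, rfl⟩ | ⟨y, j, rfl, hl⟩
      · exact key_on x h (some i) c (fun hh => by simp at hh) _ _ rfl rfl
      · rw [card_filter_sum, card_filter_sum]
        rw [card_filter_single _ (x, ⟨y - x, hl⟩) (fun jj => InC i j (aZ jj) (bZ jj) (cZ jj)
          (dZ jj)), nZ i j, card_filter_none, card_filter_none]
        · simp
        · intro jj hj
          simp only [Sum.elim_inr] at hj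
          obtain ⟨h1 | h1, _⟩ := hj <;> exact absurd h1 (by simp)
        · rintro ⟨⟨x', h'⟩, jj⟩ hj
          simp only [Sum.elim_inl, Sum.elim_inr] at hj
          obtain ⟨h1, h2⟩ := hj
          have hx : x' = x := by
            rcases h1 with h1 | h1
            · have := emb_inj (x := x) (h := h') (o := some i) h1
              exact (this.2.2 (by simp)).symm
            · have := emb_inj (x := x) (h := h') (o := some i) h1
              exact (this.2.2 (by simp)).symm
          have hy : y = x' + ((h' : ℕ) : ZMod m) := by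
            rcases h2 with h2 | h2
            · have := emb_inj (x := y) (h := h') (o := some j) h2
              exact this.2.2 (by simp)
            · have := emb_inj (x := y) (h := h') (o := some j) h2
              exact this.2.2 (by simp)
          apply hl
          rw [hy, hx, add_sub_cancel_left, cast_val ht]
          exact h'.isLt
        · rintro ⟨x', ⟨d, hd⟩⟩ jj
          simp only [Sum.elim_inl, InC, Sum.inl.injEq, Prod.mk.injEq, Subtype.mk.injEq]
          constructor
          · rintro ⟨h1, h2⟩
            have hx : x = x' := by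
              rcases h1 with h1 | h1
              · exact h1.1
              · exact h1.1
            have hy : y = x' + d := by
              rcases h2 with h2 | h2
              · exact h2.1
              · exact h2.1
            refine ⟨⟨hx.symm, by rw [hy, hx]; ring⟩, h1.imp (fun hh => hh.2) (fun hh => hh.2),
              h2.imp (fun hh => hh.2) (fun hh => hh.2)⟩
          · rintro ⟨⟨rfl, rfl⟩, h1, h2⟩
            refine ⟨h1.imp (fun hh => ⟨rfl, hh⟩) (fun hh => ⟨rfl, hh⟩),
              h2.imp (fun hh => ⟨by ring, hh⟩) (fun hh => ⟨by ring, hh⟩)⟩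
    · rcases v with ⟨y, j⟩ | h'
      · exact key_on (y - ((h : ℕ) : ZMod m)) h none (some j) (fun hh => by simp at hh) _ _ rfl
          (by simp only [emb]; rw [sub_add_cancel])
      · rw [card_filter_sum, card_filter_sum]
        rw [card_filter_none, card_filter_none]
        · have := nC h h'
          rw [zero_add, zero_add]
          refine Eq.trans (congrArg Finset.card (Finset.filter_congr fun j _ => ?_)) this
          simp only [Sum.elim_inr, InC, Sum.inr.injEq]
        · rintro ⟨⟨x', h''⟩, jj⟩ hj
          simp only [Sum.elim_inl, Sum.elim_inr] at hj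
          obtain ⟨h1, h2⟩ := hj
          apply avP jj
          constructor
          · exact h1.imp (fun hh => (emb_inj (x := x') (h := h) (o := none) hh).1)
              (fun hh => (emb_inj (x := x') (h := h) (o := none) hh).1)
          · exact h2.imp (fun hh => (emb_inj (x := x') (h := h') (o := none) hh).1)
              (fun hh => (emb_inj (x := x') (h := h') (o := none) hh).1)
        · rintro ⟨⟨x', ⟨d, hd⟩⟩, jj⟩ hj
          simp only [Sum.elim_inl] at hj
          obtain ⟨h1 | h1, _⟩ := hj <;> exact absurd h1 (by simp)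

end

end Pool.Agent.H173M
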