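import Pool.Agent.H173M.Main

/-!
# An exact composition
-/

set_option autoImplicit false

namespace Pool.Agent.H173M

open Finset
open scoped Classical

variable {κ : ℕ}

section
variable {R T K Y : Type} [CommRing R]

/-- embedding of the rows (or columns) of a bordered block -/
def E3 (x : R) (h : T) : K ⊕ Y → (R × K) ⊕ (Y × T)
  | Sum.inl k => Sum.inl (x, k)
  | Sum.inr u => Sum.inr (u, h)

/-- the composed square -/
noncomputable def comp3 (d : T → R) (Z : K → K → K) (P : K ⊕ Y → K ⊕ Y → K ⊕ Y)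
    (C : Y × T → Y × T → Y × T) :
    (R × K) ⊕ (Y × T) → (R × K) ⊕ (Y × T) → (R × K) ⊕ (Y × T)
  | Sum.inl (x, i), Sum.inl (y, j) =>
      if h : ∃ h, y - x = d h then E3 (x + 2 * y) h.choose (P (Sum.inl i) (Sum.inl j))
      else Sum.inl (x + 2 * y, Z i j)
  | Sum.inl (x, i), Sum.inr (u, h) => E3 (3 * x + 2 * d h) h (P (Sum.inl i) (Sum.inr u))
  | Sum.inr (u, h), Sum.inl (y, j) => E3 (3 * y - d h) h (P (Sum.inr u) (Sum.inl j))
  | Sum.inr p, Sum.inr q => Sum.inr (C p q)

omit [CommRing R] in
theorem E3_inj {x x' : R} {h h' : T} {o o' : K ⊕ Y} (he : E3 x h o = E3 x' h' o') :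
    o = o' ∧ (∀ u, o = Sum.inr u → h = h') ∧ (∀ k, o = Sum.inl k → x = x') := by
  rcases o with k | u <;> rcases o' with k' | u'
  · simp only [E3, Sum.inl.injEq, Prod.mk.injEq] at he
    exact ⟨by rw [he.2], fun u hh => by simp at hh, fun _ _ => he.1⟩
  · simp [E3] at he
  · simp [E3] at he
  · simp only [E3, Sum.inr.injEq, Prod.mk.injEq] at he
    exact ⟨by rw [he.1], fun _ _ => he.2, fun k hh => by simp at hh⟩

/-- not both in the hole -/
def NH (r c : K ⊕ Y) : Prop := ¬ ((∃ u, r = Sum.inr u) ∧ ∃ v, c = Sum.inr v)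

theorem c3_on {d : T → R} (hd : Function.Injective d) (Z : K → K → K)
    (P : K ⊕ Y → K ⊕ Y → K ⊕ Y) (C : Y × T → Y × T → Y × T) (x : R) (h : T) (r c : K ⊕ Y)
    (hrc : NH r c) :
    comp3 d Z P C (E3 x h r) (E3 (x + d h) h c) = E3 (3 * x + 2 * d h) h (P r c) := by
  rcases r with i | u <;> rcases c with j | v
  · simp only [E3, comp3]
    have hex : ∃ h', x + d h - x = d h' := ⟨h, by ring⟩
    rw [dif_pos hex]
    have h1 : hex.choose = h := by
      apply hd
      rw [← hex.choose_spec]
      ring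
    rw [h1]
    have h2 : x + 2 * (x + d h) = 3 * x + 2 * d h := by ring
    rw [h2]
  · simp only [E3, comp3]
  · simp only [E3, comp3]
    have h2 : 3 * (x + d h) - d h = 3 * x + 2 * d h := by ring
    rw [h2]
  · exact absurd ⟨⟨u, rfl⟩, ⟨v, rfl⟩⟩ hrc

theorem c3_off {d : T → R} (Z : K → K → K)
    (P : K ⊕ Y → K ⊕ Y → K ⊕ Y) (C : Y × T → Y × T → Y × T) (x y : R) (i j : K)
    (hn : ¬ ∃ h, y - x = d h) :
    comp3 d Z P C (Sum.inl (x, i)) (Sum.inl (y, j)) = Sum.inl (x + 2 * y, Z i j) := by
  simp only [comp3]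
  rw [dif_neg hn]

theorem col3_cases (d : T → R) (x : R) (c : (R × K) ⊕ (Y × T)) :
    (∃ (h : T) (γ : K ⊕ Y), c = E3 (x + d h) h γ) ∨
    (∃ (y : R) (j : K), c = Sum.inl (y, j) ∧ ¬ ∃ h, y - x = d h) := by
  rcases c with ⟨y, j⟩ | ⟨u, h⟩
  · by_cases hl : ∃ h, y - x = d h
    · left
      obtain ⟨h, hh⟩ := hl
      refine ⟨h, Sum.inl j, ?_⟩
      simp only [E3]
      rw [← hh, add_sub_cancel]
    · right
      exact ⟨y, j, rfl, hl⟩
  · left
    exact ⟨h, Sum.inr u, rfl⟩

theorem row3_cases (d : T → R) (y : R) (r : (R × K) ⊕ (Y × T)) :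
    (∃ (h : T) (ρ : K ⊕ Y), r = E3 (y - d h) h ρ) ∨
    (∃ (x : R) (i : K), r = Sum.inl (x, i) ∧ ¬ ∃ h, y - x = d h) := by
  rcases r with ⟨x, i⟩ | ⟨u, h⟩
  · by_cases hl : ∃ h, y - x = d h
    · left
      obtain ⟨h, hh⟩ := hl
      refine ⟨h, Sum.inl i, ?_⟩
      simp only [E3]
      rw [← hh, sub_sub_cancel]
    · right
      exact ⟨x, i, rfl, hl⟩
  · left
    exact ⟨h, Sum.inr u, rfl⟩

end

/-- the data of the composition -/
structure Dat (R T K Y : Type) [CommRing R] (d : T → R) (Z : K → K → K)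
    (P : K ⊕ Y → K ⊕ Y → K ⊕ Y) (C : Y × T → Y × T → Y × T) : Prop where
  u2 : IsUnit (2 : R)
  u3 : IsUnit (3 : R)
  u5 : IsUnit (5 : R)
  inj : Function.Injective d
  av : ∀ a b c, 3 * d c = d a + 2 * d b → a = c ∧ b = c
  lZ : Latin Z
  lP : Latin P
  lC : Latin C
  p1 : ∀ u j, ∃ k, P (Sum.inr u) (Sum.inl j) = Sum.inl k
  p2 : ∀ i u, ∃ k, P (Sum.inl i) (Sum.inr u) = Sum.inl k
  cl : ∀ ρ γ ρ' γ', Quad P ρ γ ρ' γ' → NH ρ γ → NH ρ' γ' ∧ NH ρ γ' ∧ NH ρ' γ
  cc : ∀ u v h, (C (u, h) (v, h)).2 ≠ h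

section
variable {R T K Y : Type} [CommRing R] {d : T → R} {Z : K → K → K}
  {P : K ⊕ Y → K ⊕ Y → K ⊕ Y} {C : Y × T → Y × T → Y × T}

theorem c3_latin (D : Dat R T K Y d Z P C) : Latin (comp3 d Z P C) := by
  have nh1 : ∀ (i : K) (c : K ⊕ Y), NH (Sum.inl i) c := fun i c hh => by
    obtain ⟨⟨u, hu⟩, _⟩ := hh
    simp at hu
  have nh2 : ∀ (r : K ⊕ Y) (j : K), NH r (Sum.inl j) := fun r j hh => by
    obtain ⟨_, ⟨u, hu⟩⟩ := hh
    simp at hu
  constructor
  · rintro (⟨x, i⟩ | ⟨u0, h0⟩) u v huv
    · rcases col3_cases d x u with ⟨h, c, rfl⟩ | ⟨y, j, rfl, hl⟩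
      · have e1 := c3_on D.inj Z P C x h (Sum.inl i) c (nh1 _ _)
        rcases col3_cases d x v with ⟨h', c', rfl⟩ | ⟨y', j', rfl, hl'⟩
        · have e2 := c3_on D.inj Z P C x h' (Sum.inl i) c' (nh1 _ _)
          have e3 := e1.symm.trans (huv.trans e2)
          obtain ⟨h3, h4, h5⟩ := E3_inj e3
          have hc : c = c' := D.lP.1 (Sum.inl i) h3
          have hh : h = h' := by
            rcases ho : P (Sum.inl i) c with k | w
            · have h6 := h5 k ho
              exact D.inj (D.u2.mul_left_cancel (add_left_cancel h6))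
            · exact h4 w ho
          rw [hc, hh]
        · exfalso
          have e2 := c3_off Z P C x y' i j' hl'
          have e3 : E3 (3 * x + 2 * d h) h (P (Sum.inl i) c) =
              E3 (x + 2 * y') h (Sum.inl (Z i j')) := e1.symm.trans (huv.trans e2)
          obtain ⟨h3, h4, h5⟩ := E3_inj e3
          have h6 := h5 _ h3
          apply hl'
          refine ⟨h, D.u2.mul_left_cancel ?_⟩
          linear_combination -h6
      · have e1 := c3_off Z P C x y i j hl
        rcases col3_cases d x v with ⟨h', c', rfl⟩ | ⟨y', j', rfl, hl'⟩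
        · exfalso
          have e2 := c3_on D.inj Z P C x h' (Sum.inl i) c' (nh1 _ _)
          have e3 : E3 (3 * x + 2 * d h') h' (P (Sum.inl i) c') =
              E3 (x + 2 * y) h' (Sum.inl (Z i j)) := e2.symm.trans (huv.symm.trans e1)
          obtain ⟨h3, h4, h5⟩ := E3_inj e3
          have h6 := h5 _ h3
          apply hl
          refine ⟨h', D.u2.mul_left_cancel ?_⟩
          linear_combination -h6
        · have e2 := c3_off Z P C x y' i j' hl'
          rw [e1, e2] at huv
          obtain ⟨h3, h4⟩ := Prod.mk.inj (Sum.inl_injective huv)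
          rw [D.u2.mul_left_cancel (add_left_cancel h3), D.lZ.1 i h4]
    · rcases u with ⟨y, j⟩ | p
      · rcases v with ⟨y', j'⟩ | q
        · simp only [comp3] at huv
          obtain ⟨h3, _, h5⟩ := E3_inj huv
          have h6 : (Sum.inl j : K ⊕ Y) = Sum.inl j' := D.lP.1 (Sum.inr u0) h3
          obtain ⟨k, hk⟩ := D.p1 u0 j
          have h8 := h5 k hk
          have h9 : (3 : R) * y = 3 * y' := by linear_combination h8
          rw [D.u3.mul_left_cancel h9, Sum.inl_injective h6]
        · exfalso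
          simp only [comp3] at huv
          obtain ⟨k, hk⟩ := D.p1 u0 j
          rw [hk] at huv
          simp [E3] at huv
      · rcases v with ⟨y', j'⟩ | q
        · exfalso
          simp only [comp3] at huv
          obtain ⟨k, hk⟩ := D.p1 u0 j'
          rw [hk] at huv
          simp [E3] at huv
        · simp only [comp3, Sum.inr.injEq] at huv
          rw [D.lC.1 _ huv]
  · rintro (⟨y, j⟩ | ⟨u0, h0⟩) u v huv
    · simp only at huv
      rcases row3_cases d y u with ⟨h, r, rfl⟩ | ⟨x, i, rfl, hl⟩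
      · have e1 := c3_on D.inj Z P C (y - d h) h r (Sum.inl j) (nh2 _ _)
        rw [sub_add_cancel] at e1
        rcases row3_cases d y v with ⟨h', r', rfl⟩ | ⟨x', i', rfl, hl'⟩
        · have e2 := c3_on D.inj Z P C (y - d h') h' r' (Sum.inl j) (nh2 _ _)
          rw [sub_add_cancel] at e2
          have e3 := e1.symm.trans (huv.trans e2)
          obtain ⟨h3, h4, h5⟩ := E3_inj e3
          have hr : r = r' := D.lP.2 (Sum.inl j) h3
          have hh : h = h' := by
            rcases ho : P r (Sum.inl j) with k | w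
            · have h6 := h5 k ho
              apply D.inj
              linear_combination -h6
            · exact h4 w ho
          rw [hr, hh]
        · exfalso
          have e2 := c3_off Z P C x' y i' j hl'
          have e3 : E3 (3 * (y - d h) + 2 * d h) h (P r (Sum.inl j)) =
              E3 (x' + 2 * y) h (Sum.inl (Z i' j)) := e1.symm.trans (huv.trans e2)
          obtain ⟨h3, h4, h5⟩ := E3_inj e3
          have h6 := h5 _ h3
          apply hl'
          refine ⟨h, ?_⟩
          linear_combination h6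
      · have e1 := c3_off Z P C x y i j hl
        rcases row3_cases d y v with ⟨h', r', rfl⟩ | ⟨x', i', rfl, hl'⟩
        · exfalso
          have e2 := c3_on D.inj Z P C (y - d h') h' r' (Sum.inl j) (nh2 _ _)
          rw [sub_add_cancel] at e2
          have e3 : E3 (3 * (y - d h') + 2 * d h') h' (P r' (Sum.inl j)) =
              E3 (x + 2 * y) h' (Sum.inl (Z i j)) := e2.symm.trans (huv.symm.trans e1)
          obtain ⟨h3, h4, h5⟩ := E3_inj e3
          have h6 := h5 _ h3
          apply hl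
          refine ⟨h', ?_⟩
          linear_combination h6
        · have e2 := c3_off Z P C x' y i' j hl'
          rw [e1, e2] at huv
          obtain ⟨h3, h4⟩ := Prod.mk.inj (Sum.inl_injective huv)
          have h5 : i = i' := D.lZ.2 j h4
          rw [add_right_cancel h3, h5]
    · rcases u with ⟨x, i⟩ | p
      · rcases v with ⟨x', i'⟩ | q
        · simp only [comp3] at huv
          obtain ⟨h3, _, h5⟩ := E3_inj huv
          have h6 : (Sum.inl i : K ⊕ Y) = Sum.inl i' := D.lP.2 (Sum.inr u0) h3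
          obtain ⟨k, hk⟩ := D.p2 i u0
          have h8 := h5 k hk
          have h9 : (3 : R) * x = 3 * x' := by linear_combination h8
          rw [D.u3.mul_left_cancel h9, Sum.inl_injective h6]
        · exfalso
          simp only [comp3] at huv
          obtain ⟨k, hk⟩ := D.p2 i u0
          rw [hk] at huv
          simp [E3] at huv
      · rcases v with ⟨x', i'⟩ | q
        · exfalso
          simp only [comp3] at huv
          obtain ⟨k, hk⟩ := D.p2 i' u0
          rw [hk] at huv
          simp [E3] at huv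
        · simp only [comp3, Sum.inr.injEq] at huv
          have h4 : p = q := D.lC.2 _ huv
          rw [h4]

end

end Pool.Agent.H173M
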