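import Pool.Agent.H173M.Comp3

/-!
# The intercalates of the exact composition
-/

set_option autoImplicit false

namespace Pool.Agent.H173M

open Finset
open scoped Classical

variable {κ : ℕ}

section
variable {R T K Y : Type} [CommRing R] {d : T → R} {Z : K → K → K}
  {P : K ⊕ Y → K ⊕ Y → K ⊕ Y} {C : Y × T → Y × T → Y × T}

theorem v_ll (x y : R) (i j : K) :
    (∃ k, comp3 d Z P C (Sum.inl (x, i)) (Sum.inl (y, j)) = Sum.inl (x + 2 * y, k)) ∨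
    (∃ u h, y - x = d h ∧ comp3 d Z P C (Sum.inl (x, i)) (Sum.inl (y, j)) = Sum.inr (u, h)) := by
  by_cases hn : ∃ h, y - x = d h
  · simp only [comp3]
    rw [dif_pos hn]
    rcases ho : P (Sum.inl i) (Sum.inl j) with k | u
    · left
      exact ⟨k, rfl⟩
    · right
      exact ⟨u, hn.choose, hn.choose_spec, rfl⟩
  · left
    exact ⟨_, c3_off Z P C x y i j hn⟩

theorem v_lr (D : Dat R T K Y d Z P C) (x : R) (i : K) (u : Y) (h : T) :
    ∃ k, comp3 d Z P C (Sum.inl (x, i)) (Sum.inr (u, h)) = Sum.inl (3 * x + 2 * d h, k) := by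
  obtain ⟨k, hk⟩ := D.p2 i u
  refine ⟨k, ?_⟩
  simp only [comp3]
  rw [hk]
  rfl

theorem v_rl (D : Dat R T K Y d Z P C) (y : R) (j : K) (u : Y) (h : T) :
    ∃ k, comp3 d Z P C (Sum.inr (u, h)) (Sum.inl (y, j)) = Sum.inl (3 * y - d h, k) := by
  obtain ⟨k, hk⟩ := D.p1 u j
  refine ⟨k, ?_⟩
  simp only [comp3]
  rw [hk]
  rfl

/-- both rows and both columns plain -/
def QPlain (r c r' c' : (R × K) ⊕ (Y × T)) : Prop :=
  ∃ x y i i' j j', r = Sum.inl (x, i) ∧ r' = Sum.inl (x, i') ∧ c = Sum.inl (y, j) ∧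
    c' = Sum.inl (y, j')

/-- inside a bordered block, off the hole -/
def QBord (d : T → R) (r c r' c' : (R × K) ⊕ (Y × T)) : Prop :=
  ∃ x h ρ ρ' γ γ', r = E3 x h ρ ∧ r' = E3 x h ρ' ∧ c = E3 (x + d h) h γ ∧
    c' = E3 (x + d h) h γ' ∧ (((∃ i, ρ = Sum.inl i) ∧ ∃ i', ρ' = Sum.inl i') ∨
      ((∃ j, γ = Sum.inl j) ∧ ∃ j', γ' = Sum.inl j'))

/-- inside the hole -/
def QHole (r c r' c' : (R × K) ⊕ (Y × T)) : Prop :=
  (∃ p, r = Sum.inr p) ∧ (∃ p, c = Sum.inr p) ∧ (∃ p, r' = Sum.inr p) ∧ ∃ p, c' = Sum.inr p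

/-- the classification -/
def QC (d : T → R) (r c r' c' : (R × K) ⊕ (Y × T)) : Prop :=
  QPlain r c r' c' ∨ QBord d r c r' c' ∨ QHole r c r' c'

theorem QC.row {r c r' c' : (R × K) ⊕ (Y × T)} (h : QC d r c r' c') : QC d r' c r c' := by
  rcases h with ⟨x, y, i, i', j, j', h1, h2, h3, h4⟩ |
    ⟨x, h, ρ, ρ', γ, γ', h1, h2, h3, h4, h5⟩ | ⟨h1, h2, h3, h4⟩
  · exact Or.inl ⟨x, y, i', i, j, j', h2, h1, h3, h4⟩
  · exact Or.inr (Or.inl ⟨x, h, ρ', ρ, γ, γ', h2, h1, h3, h4, h5.imp (fun h => ⟨h.2, h.1⟩)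
      (fun h => h)⟩)
  · exact Or.inr (Or.inr ⟨h3, h2, h1, h4⟩)

theorem QC.col {r c r' c' : (R × K) ⊕ (Y × T)} (h : QC d r c r' c') : QC d r c' r' c := by
  rcases h with ⟨x, y, i, i', j, j', h1, h2, h3, h4⟩ |
    ⟨x, h, ρ, ρ', γ, γ', h1, h2, h3, h4, h5⟩ | ⟨h1, h2, h3, h4⟩
  · exact Or.inl ⟨x, y, i, i', j', j, h1, h2, h4, h3⟩
  · exact Or.inr (Or.inl ⟨x, h, ρ, ρ', γ', γ, h1, h2, h4, h3, h5.imp (fun h => h)
      (fun h => ⟨h.2, h.1⟩)⟩)
  · exact Or.inr (Or.inr ⟨h1, h4, h3, h2⟩)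

/-- case 1 -/
theorem qc_llll (D : Dat R T K Y d Z P C) {x x' y y' : R} {i i' j j' : K}
    (hq : Quad (comp3 d Z P C) (Sum.inl (x, i)) (Sum.inl (y, j)) (Sum.inl (x', i'))
      (Sum.inl (y', j'))) :
    QC d (Sum.inl (x, i) : (R × K) ⊕ (Y × T)) (Sum.inl (y, j)) (Sum.inl (x', i'))
      (Sum.inl (y', j')) := by
  obtain ⟨_, _, h3, h4⟩ := hq
  have key : x = x' ∧ y = y' := by
    rcases v_ll (d := d) (Z := Z) (P := P) (C := C) x y i j with ⟨k1, e1⟩ | ⟨u1, h1, g1, e1⟩ <;>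
    rcases v_ll (d := d) (Z := Z) (P := P) (C := C) x' y' i' j' with
      ⟨k2, e2⟩ | ⟨u2, h2, g2, e2⟩ <;>
    rcases v_ll (d := d) (Z := Z) (P := P) (C := C) x y' i j' with
      ⟨k3, e3⟩ | ⟨u3, h3', g3, e3⟩ <;>
    rcases v_ll (d := d) (Z := Z) (P := P) (C := C) x' y i' j with
      ⟨k4, e4⟩ | ⟨u4, h4', g4, e4⟩ <;>
    rw [e1, e2] at h3 <;> rw [e3, e4] at h4 <;>
    simp only [Sum.inl.injEq, Sum.inr.injEq, Prod.mk.injEq, reduceCtorEq] at h3 h4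
    · have hy : y = y' := by
        have : (2 : R) * (2 * y) = 2 * (2 * y') := by linear_combination h3.1 - h4.1
        exact D.u2.mul_left_cancel (D.u2.mul_left_cancel this)
      subst hy
      exact ⟨by linear_combination h3.1, rfl⟩
    · rw [h4.2] at g3
      have hy : y = y' := by linear_combination h3.1 + g3 - g4
      subst hy
      exact ⟨by linear_combination h3.1, rfl⟩
    · rw [h3.2] at g1
      have hy : y = y' := by linear_combination (-1 : R) * h4.1 + (-1 : R) * g1 + g2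
      subst hy
      exact ⟨by linear_combination h4.1, rfl⟩
    · rw [h3.2] at g1
      rw [h4.2] at g3
      have hx : x = x' := by
        have : (2 : R) * x = 2 * x' := by linear_combination (-1 : R) * g1 + g2 - g3 + g4
        exact D.u2.mul_left_cancel this
      subst hx
      exact ⟨rfl, by linear_combination g1 - g2⟩
  obtain ⟨rfl, rfl⟩ := key
  exact Or.inl ⟨x, y, i, i', j, j', rfl, rfl, rfl, rfl⟩

/-- case 2 -/
theorem qc_rowmix (D : Dat R T K Y d Z P C) {x y y' : R} {i j j' : K} {u : Y} {h : T}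
    (hq : Quad (comp3 d Z P C) (Sum.inl (x, i)) (Sum.inl (y, j)) (Sum.inr (u, h))
      (Sum.inl (y', j'))) :
    QC d (Sum.inl (x, i) : (R × K) ⊕ (Y × T)) (Sum.inl (y, j)) (Sum.inr (u, h))
      (Sum.inl (y', j')) := by
  obtain ⟨_, _, h3, h4⟩ := hq
  obtain ⟨k2, e2⟩ := v_rl D y' j' u h
  obtain ⟨k4, e4⟩ := v_rl D y j u h
  have key : y = y' ∧ y = x + d h := by
    rcases v_ll (d := d) (Z := Z) (P := P) (C := C) x y i j with ⟨k1, e1⟩ | ⟨u1, h1, g1, e1⟩ <;>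
    rcases v_ll (d := d) (Z := Z) (P := P) (C := C) x y' i j' with
      ⟨k3, e3⟩ | ⟨u3, h3', g3, e3⟩ <;>
    rw [e1, e2] at h3 <;> rw [e3, e4] at h4 <;>
    simp only [Sum.inl.injEq, Prod.mk.injEq, reduceCtorEq] at h3 h4
    have hy : y = y' := by
      have : (5 : R) * y = 5 * y' := by linear_combination h3.1 - h4.1
      exact D.u5.mul_left_cancel this
    subst hy
    exact ⟨rfl, by linear_combination (-1 : R) * h3.1⟩
  obtain ⟨rfl, rfl⟩ := key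
  exact Or.inr (Or.inl ⟨x, h, Sum.inl i, Sum.inr u, Sum.inl j, Sum.inl j', rfl, rfl, rfl, rfl,
    Or.inr ⟨⟨j, rfl⟩, ⟨j', rfl⟩⟩⟩)

/-- case 3 -/
theorem qc_colmix (D : Dat R T K Y d Z P C) {x x' y : R} {i i' j : K} {v : Y} {h : T}
    (hq : Quad (comp3 d Z P C) (Sum.inl (x, i)) (Sum.inl (y, j)) (Sum.inl (x', i'))
      (Sum.inr (v, h))) :
    QC d (Sum.inl (x, i) : (R × K) ⊕ (Y × T)) (Sum.inl (y, j)) (Sum.inl (x', i'))
      (Sum.inr (v, h)) := by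
  obtain ⟨_, _, h3, h4⟩ := hq
  obtain ⟨k2, e2⟩ := v_lr D x' i' v h
  obtain ⟨k3, e3⟩ := v_lr D x i v h
  have key : x = x' ∧ y = x + d h := by
    rcases v_ll (d := d) (Z := Z) (P := P) (C := C) x y i j with ⟨k1, e1⟩ | ⟨u1, h1, g1, e1⟩ <;>
    rcases v_ll (d := d) (Z := Z) (P := P) (C := C) x' y i' j with
      ⟨k4, e4⟩ | ⟨u4, h4', g4, e4⟩ <;>
    rw [e1, e2] at h3 <;> rw [e3, e4] at h4 <;>
    simp only [Sum.inl.injEq, Prod.mk.injEq, reduceCtorEq] at h3 h4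
    have hx : x = x' := by
      have : (2 : R) * (2 * x) = 2 * (2 * x') := by linear_combination h3.1 + h4.1
      exact D.u2.mul_left_cancel (D.u2.mul_left_cancel this)
    subst hx
    refine ⟨rfl, D.u2.mul_left_cancel ?_⟩
    linear_combination h3.1
  obtain ⟨rfl, rfl⟩ := key
  exact Or.inr (Or.inl ⟨x, h, Sum.inl i, Sum.inl i', Sum.inl j, Sum.inr v, rfl, rfl, rfl, rfl,
    Or.inl ⟨⟨i, rfl⟩, ⟨i', rfl⟩⟩⟩)

/-- case 4 -/
theorem qc_mix (D : Dat R T K Y d Z P C) {x y : R} {i j : K} {u v : Y} {h h' : T}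
    (hq : Quad (comp3 d Z P C) (Sum.inl (x, i)) (Sum.inl (y, j)) (Sum.inr (u, h))
      (Sum.inr (v, h'))) : False := by
  obtain ⟨_, _, h3, h4⟩ := hq
  obtain ⟨k3, e3⟩ := v_lr D x i v h'
  obtain ⟨k4, e4⟩ := v_rl D y j u h
  rw [e3, e4] at h4
  simp only [Sum.inl.injEq, Prod.mk.injEq] at h4
  rcases v_ll (d := d) (Z := Z) (P := P) (C := C) x y i j with ⟨k1, e1⟩ | ⟨u1, h1, g1, e1⟩ <;>
    rw [e1] at h3 <;> simp only [comp3, Sum.inr.injEq, reduceCtorEq] at h3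
  have h5 : (3 : R) * d h1 = d h + 2 * d h' := by
    rw [← g1]
    linear_combination (-1 : R) * h4.1
  obtain ⟨h6, h7⟩ := D.av _ _ _ h5
  subst h6
  subst h7
  exact D.cc u v _ (by rw [← h3])

/-- case 5 -/
theorem qc_llrr (D : Dat R T K Y d Z P C) {x x' : R} {i i' : K} {v v' : Y} {h h' : T}
    (hq : Quad (comp3 d Z P C) (Sum.inl (x, i)) (Sum.inr (v, h)) (Sum.inl (x', i'))
      (Sum.inr (v', h'))) :
    QC d (Sum.inl (x, i) : (R × K) ⊕ (Y × T)) (Sum.inr (v, h)) (Sum.inl (x', i'))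
      (Sum.inr (v', h')) := by
  obtain ⟨_, _, h3, h4⟩ := hq
  obtain ⟨k1, e1⟩ := v_lr D x i v h
  obtain ⟨k2, e2⟩ := v_lr D x' i' v' h'
  obtain ⟨k3, e3⟩ := v_lr D x i v' h'
  obtain ⟨k4, e4⟩ := v_lr D x' i' v h
  rw [e1, e2] at h3
  rw [e3, e4] at h4
  simp only [Sum.inl.injEq, Prod.mk.injEq] at h3 h4
  have hh : h = h' := by
    apply D.inj
    have : (2 : R) * (2 * d h) = 2 * (2 * d h') := by linear_combination h3.1 - h4.1
    exact D.u2.mul_left_cancel (D.u2.mul_left_cancel this)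
  subst hh
  have hx : x = x' := D.u3.mul_left_cancel (by linear_combination h3.1)
  subst hx
  exact Or.inr (Or.inl ⟨x, h, Sum.inl i, Sum.inl i', Sum.inr v, Sum.inr v', rfl, rfl, rfl, rfl,
    Or.inl ⟨⟨i, rfl⟩, ⟨i', rfl⟩⟩⟩)

/-- case 6 -/
theorem qc_rrll (D : Dat R T K Y d Z P C) {y y' : R} {j j' : K} {u u' : Y} {h h' : T}
    (hq : Quad (comp3 d Z P C) (Sum.inr (u, h)) (Sum.inl (y, j)) (Sum.inr (u', h'))
      (Sum.inl (y', j'))) :
    QC d (Sum.inr (u, h) : (R × K) ⊕ (Y × T)) (Sum.inl (y, j)) (Sum.inr (u', h'))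
      (Sum.inl (y', j')) := by
  obtain ⟨_, _, h3, h4⟩ := hq
  obtain ⟨k1, e1⟩ := v_rl D y j u h
  obtain ⟨k2, e2⟩ := v_rl D y' j' u' h'
  obtain ⟨k3, e3⟩ := v_rl D y' j' u h
  obtain ⟨k4, e4⟩ := v_rl D y j u' h'
  rw [e1, e2] at h3
  rw [e3, e4] at h4
  simp only [Sum.inl.injEq, Prod.mk.injEq] at h3 h4
  have hy : y = y' := by
    have : (2 : R) * (3 * y) = 2 * (3 * y') := by linear_combination h3.1 - h4.1
    exact D.u3.mul_left_cancel (D.u2.mul_left_cancel this)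
  subst hy
  have hh : h = h' := by
    apply D.inj
    linear_combination (-1 : R) * h3.1
  subst hh
  refine Or.inr (Or.inl ⟨y - d h, h, Sum.inr u, Sum.inr u', Sum.inl j, Sum.inl j', rfl, rfl, ?_,
    ?_, Or.inr ⟨⟨j, rfl⟩, ⟨j', rfl⟩⟩⟩)
  · simp only [E3]
    rw [sub_add_cancel]
  · simp only [E3]
    rw [sub_add_cancel]

theorem qc_all (D : Dat R T K Y d Z P C) {r c r' c' : (R × K) ⊕ (Y × T)}
    (hq : Quad (comp3 d Z P C) r c r' c') : QC d r c r' c' := by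
  rcases r with ⟨x, i⟩ | ⟨u, h⟩ <;> rcases c with ⟨y, j⟩ | ⟨v, g⟩ <;>
    rcases r' with ⟨x', i'⟩ | ⟨u', h'⟩ <;> rcases c' with ⟨y', j'⟩ | ⟨v', g'⟩
  · exact qc_llll D hq
  · exact qc_colmix D hq
  · exact qc_rowmix D hq
  · exact absurd hq (fun hh => qc_mix D hh)
  · exact (qc_colmix D hq.col).col
  · exact qc_llrr D hq
  · exact absurd hq.col (fun hh => qc_mix D hh)
  · exfalso
    obtain ⟨_, _, h3, h4⟩ := hq
    obtain ⟨k1, e1⟩ := v_lr D x i v g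
    rw [e1] at h3
    simp [comp3] at h3
  · exact (qc_rowmix D hq.row).row
  · exact absurd hq.row (fun hh => qc_mix D hh)
  · exact qc_rrll D hq
  · exfalso
    obtain ⟨_, _, h3, h4⟩ := hq
    obtain ⟨k1, e1⟩ := v_rl D y j u h
    rw [e1] at h3
    simp [comp3] at h3
  · exact absurd hq.swap (fun hh => qc_mix D hh)
  · exfalso
    obtain ⟨_, _, h3, h4⟩ := hq
    obtain ⟨k1, e1⟩ := v_lr D x' i' v' g'
    rw [e1] at h3
    simp [comp3] at h3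
  · exfalso
    obtain ⟨_, _, h3, h4⟩ := hq
    obtain ⟨k1, e1⟩ := v_rl D y' j' u' h'
    rw [e1] at h3
    simp [comp3] at h3
  · exact Or.inr (Or.inr ⟨⟨_, rfl⟩, ⟨_, rfl⟩, ⟨_, rfl⟩, ⟨_, rfl⟩⟩)

end

end Pool.Agent.H173M
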