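import Pool.Agent.H173M.Beta
import Pool.Agent.H173M.Null

/-!
# Intercalate systems give 4-homogeneous latin squares for almost all multiples
-/

set_option autoImplicit false

namespace Pool.Agent.H173M

open Finset
open scoped Classical

variable {κ : ℕ}

/-- 4-homogeneous latin square on a finite type -/
def IsHom (κ : ℕ) (X : Type) [Fintype X] (L : X → X → X) : Prop :=
  Latin L ∧ ∀ r c, ((Finset.univ : Finset (X × X)).filter
    (fun p => Quad L r c p.1 p.2)).card = κ

/-- the orders of 4-homogeneous latin squares -/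
def G (κ : ℕ) : Set ℕ := {n | ∃ (X : Type) (_ : Fintype X) (L : X → X → X),
  Fintype.card X = n ∧ IsHom κ X L}

/-- the odd multiples of `k` -/
def OddMul (k : ℕ) : Set ℕ := {n | ∃ M, Odd M ∧ n = k * M}

theorem hom_of_sys {X : Type} [Fintype X] {L : X → X → X} {ι : Type} {w : ι → ℕ}
    {f : X → X → X → X → ι} (S : Sys κ X L ι w f) (hw : ∀ i, w i = 1) : IsHom κ X L := by
  refine ⟨S.lat, fun r c => ?_⟩
  rw [Finset.card_filter, ← S.tot r c]
  refine Finset.sum_congr rfl fun p _ => ?_
  rw [hw]

theorem hom_mul {X : Type} [Fintype X] {L : X → X → X} (h : IsHom κ X L) {M : ℕ} [NeZero M]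
    (hM : Odd M) : IsHom κ (X × ZMod M) (tw L (fun _ _ => 1) (fun _ _ => 0)) := by
  have h1 : ∀ x y : X, IsUnit ((fun _ _ => (1 : ZMod M)) x y) := fun _ _ => isUnit_one
  have h2 : IsUnit (2 : ZMod M) := by
    have := (ZMod.isUnit_iff_coprime 2 M).2 (Nat.coprime_two_left.2 hM)
    simpa using this
  refine ⟨tw_latin h.1 h1, fun a b => ?_⟩
  rw [Finset.card_filter, sum_prod4, ← h.2 a.1 b.1, Finset.card_filter]
  refine Finset.sum_congr rfl fun s _ => ?_
  by_cases hq : Quad L a.1 b.1 s.1 s.2
  · rw [if_pos hq]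
    have hu : IsUnit ((fun _ _ => (1 : ZMod M)) a.1 s.2 + (fun _ _ => (1 : ZMod M)) s.1 s.2) := by
      simpa [one_add_one_eq_two] using h2
    refine Eq.trans ?_ (inner_unit (β := fun _ _ => (1 : ZMod M)) (γ := fun _ _ => (0 : ZMod M))
      (x := a.1) (y := b.1) (i := a.2) (j := b.2) (s := s) hu 1)
    refine Finset.sum_congr rfl fun t _ => ?_
    have hiff := tw_quad' (γ := fun _ _ => (0 : ZMod M)) h.1 h1 h2 a b (s.1, t.1) (s.2, t.2)
    by_cases hl : Lift (fun _ _ => (1 : ZMod M)) (fun _ _ => 0) a.1 b.1 a.2 b.2 s t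
    · rw [if_pos hl, if_pos (hiff.2 ⟨hq, hl⟩)]
    · rw [if_neg hl, if_neg (fun h => hl (hiff.1 h).2)]
  · rw [if_neg hq]
    refine Finset.sum_eq_zero fun t _ => ?_
    rw [if_neg]
    intro hh
    exact hq ((tw_quad' h.1 h1 h2 _ _ _ _).1 hh).1

theorem oddMul_sub_G {X : Type} [Fintype X] {L : X → X → X} (h : IsHom κ X L) :
    OddMul (Fintype.card X) ⊆ G κ := by
  rintro n ⟨M, hM, rfl⟩
  have : NeZero M := ⟨by rintro rfl; exact absurd hM (by decide)⟩
  refine ⟨X × ZMod M, inferInstance, _, ?_, hom_mul h hM⟩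
  rw [Fintype.card_prod, ZMod.card]

theorem sieve_step {k K0 : ℕ} (hk : 0 < k) (hK : k ≤ K0)
    (h : ∀ q, q.Prime → K0 < q → Null (OddMul (k * q) \ G κ)) : Null (OddMul k \ G κ) := by
  apply null_of_approx
  intro ε hε
  obtain ⟨P, hP, hN⟩ := sieve K0 ε hε
  refine ⟨{n | ∃ q ∈ P, n ∈ OddMul (k * q) \ G κ}, {n | ∀ q ∈ P, ¬ q ∣ n},
    null_biUnion P _ (fun q hq => h q (hP q hq).1 (hP q hq).2), ?_, hN⟩
  rintro n ⟨⟨M, hM, rfl⟩, hn⟩
  by_cases hq : ∃ q ∈ P, q ∣ k * M
  · left
    obtain ⟨q, hq, hd⟩ := hq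
    have hqp := (hP q hq).1
    have hqk : ¬ q ∣ k := fun hh => absurd (Nat.le_of_dvd hk hh) (by have := (hP q hq).2; omega)
    obtain ⟨M', rfl⟩ := (hqp.dvd_mul.1 hd).resolve_left hqk
    refine ⟨q, hq, ⟨M', (Nat.odd_mul.1 hM).2, by ring⟩, hn⟩
  · right
    intro q hq' hd
    exact hq ⟨q, hq', hd⟩

theorem null_of_sys_zero : ∀ (z : ℕ) (X : Type) [Fintype X] (L : X → X → X) (ι : Type)
    [Fintype ι] (w : ι → ℕ) (f : X → X → X → X → ι), 0 < Fintype.card X → Sys κ X L ι w f →
    (∀ i, w i ≤ 1) → ((Finset.univ : Finset ι).filter (fun i => w i = 0)).card = z →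
    Null (OddMul (Fintype.card X) \ G κ) := by
  intro z
  induction z with
  | zero =>
    intro X _ L ι _ w f hX S hw hz
    have hw1 : ∀ i, w i = 1 := by
      intro i
      have h1 := hw i
      rcases Nat.eq_zero_or_pos (w i) with h | h
      · rw [Finset.card_eq_zero] at hz
        exact absurd (Finset.mem_filter.2 ⟨Finset.mem_univ i, h⟩) (by rw [hz]; simp)
      · omega
    refine null_empty.mono ?_
    rintro n ⟨h1, h2⟩
    exact absurd (oddMul_sub_G (hom_of_sys S hw1) h1) h2
  | succ z ih =>
    intro X _ L ι _ w f hX S hw hz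
    obtain ⟨i0, hi0⟩ : ∃ i, w i = 0 := by
      have : 0 < ((Finset.univ : Finset ι).filter (fun i => w i = 0)).card := by omega
      obtain ⟨i, hi⟩ := Finset.card_pos.1 this
      exact ⟨i, (Finset.mem_filter.1 hi).2⟩
    refine sieve_step (K0 := 2 * Fintype.card X + 2) hX (by omega) fun q hq hK => ?_
    have : Fact q.Prime := ⟨hq⟩
    obtain ⟨L', f', S'⟩ := step_kill S i0 hi0 q hK
    have hc : Fintype.card (X × ZMod q) = Fintype.card X * q := by
      rw [Fintype.card_prod, ZMod.card]
    rw [← hc]
    refine ih (X × ZMod q) L' ι _ f' ?_ S' ?_ ?_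
    · rw [hc]
      exact Nat.mul_pos hX hq.pos
    · intro i
      by_cases hi : i = i0
      · subst hi
        rw [Function.update_self]
      · rw [Function.update_of_ne hi]
        exact hw i
    · have hmem : i0 ∈ (Finset.univ : Finset ι).filter (fun i => w i = 0) :=
        Finset.mem_filter.2 ⟨Finset.mem_univ _, hi0⟩
      have : (Finset.univ : Finset ι).filter (fun i => Function.update w i0 1 i = 0) =
          ((Finset.univ : Finset ι).filter (fun i => w i = 0)).erase i0 := by
        ext i
        simp only [Finset.mem_filter, Finset.mem_univ, true_and, Finset.mem_erase]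
        by_cases hi : i = i0
        · subst hi
          simp
        · rw [Function.update_of_ne hi]
          simp [hi]
      rw [this, Finset.card_erase_of_mem hmem, hz]
      rfl

theorem null_of_sys : ∀ (h : ℕ) (X : Type) [Fintype X] (L : X → X → X) (ι : Type)
    [Fintype ι] (w : ι → ℕ) (f : X → X → X → X → ι), 0 < Fintype.card X → Sys κ X L ι w f →
    ((Finset.univ : Finset ι).filter (fun i => 2 ≤ w i)).card = h →
    Null (OddMul (Fintype.card X) \ G κ) := by
  intro h
  induction h with
  | zero =>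
    intro X _ L ι _ w f hX S hh
    refine null_of_sys_zero _ X L ι w f hX S ?_ rfl
    intro i
    by_contra hi
    rw [Finset.card_eq_zero] at hh
    exact absurd (Finset.mem_filter.2 ⟨Finset.mem_univ i, (by omega : 2 ≤ w i)⟩)
      (by rw [hh]; simp)
  | succ h ih =>
    intro X _ L ι _ w f hX S hh
    obtain ⟨i0, hi0⟩ : ∃ i, 2 ≤ w i := by
      have : 0 < ((Finset.univ : Finset ι).filter (fun i => 2 ≤ w i)).card := by omega
      obtain ⟨i, hi⟩ := Finset.card_pos.1 this
      exact ⟨i, (Finset.mem_filter.1 hi).2⟩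
    refine sieve_step (K0 := 2 * Fintype.card X + 2 + w i0) hX (by omega) fun q hq hK => ?_
    have : Fact q.Prime := ⟨hq⟩
    obtain ⟨L', f', v, hv, S'⟩ := step_split S i0 q (by omega) (by omega)
    have hc : Fintype.card (X × ZMod q) = Fintype.card X * q := by
      rw [Fintype.card_prod, ZMod.card]
    rw [← hc]
    refine ih (X × ZMod q) L' (ι ⊕ ZMod q) _ f' ?_ S' ?_
    · rw [hc]
      exact Nat.mul_pos hX hq.pos
    · have hmem : i0 ∈ (Finset.univ : Finset ι).filter (fun i => 2 ≤ w i) :=
        Finset.mem_filter.2 ⟨Finset.mem_univ _, hi0⟩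
      have : (Finset.univ : Finset (ι ⊕ ZMod q)).filter
          (fun i => 2 ≤ Sum.elim (Function.update w i0 1) v i) =
          (((Finset.univ : Finset ι).filter (fun i => 2 ≤ w i)).erase i0).map
            Function.Embedding.inl := by
        ext i
        simp only [Finset.mem_filter, Finset.mem_univ, true_and, Finset.mem_map,
          Finset.mem_erase, Function.Embedding.inl_apply]
        constructor
        · intro hi
          rcases i with i | g
          · simp only [Sum.elim_inl] at hi
            refine ⟨i, ?_, rfl⟩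
            by_cases hii : i = i0
            · subst hii
              rw [Function.update_self] at hi
              omega
            · rw [Function.update_of_ne hii] at hi
              exact ⟨hii, hi⟩
          · simp only [Sum.elim_inr] at hi
            have := hv g
            omega
        · rintro ⟨a, ⟨ha, ha2⟩, rfl⟩
          simp only [Sum.elim_inl]
          rw [Function.update_of_ne ha]
          exact ha2
      rw [this, Finset.card_map, Finset.card_erase_of_mem hmem, hh]
      rfl

end Pool.Agent.H173M
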