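import Pool.Agent.H173M.Data
import Pool.Agent.H173M.Main

/-!
# Almost all orders
-/

set_option autoImplicit false

namespace Pool.Agent.H173M

open Finset
open scoped Classical

variable {κ : ℕ}

/-- transport of a square -/
def conj {X Y : Type} (e : X ≃ Y) (L : X → X → X) : Y → Y → Y :=
  fun a b => e (L (e.symm a) (e.symm b))

theorem latin_conj {X Y : Type} (e : X ≃ Y) {L : X → X → X} (h : Latin L) :
    Latin (conj e L) := by
  constructor
  · intro r c c' hh
    exact e.symm.injective (h.1 _ (e.injective hh))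
  · intro c r r' hh
    exact e.symm.injective (h.2 _ (e.injective hh))

theorem quad_conj {X Y : Type} (e : X ≃ Y) {L : X → X → X} (r c r' c' : Y) :
    Quad (conj e L) r c r' c' ↔ Quad L (e.symm r) (e.symm c) (e.symm r') (e.symm c') := by
  unfold Quad conj
  simp only [EmbeddingLike.apply_eq_iff_eq, ne_eq]

theorem cover_conj {X Y : Type} (e : X ≃ Y) {L : X → X → X} (h : Cover κ X L) :
    Cover κ Y (conj e L) := by
  obtain ⟨J, _, a, b, c, d, hq, hc⟩ := h
  refine ⟨J, inferInstance, fun j => e (a j), fun j => e (b j), fun j => e (c j),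
    fun j => e (d j), ?_, ?_⟩
  · intro j
    rw [quad_conj]
    simpa using hq j
  · intro x y
    rw [← hc (e.symm x) (e.symm y)]
    refine congrArg Finset.card (Finset.filter_congr fun j _ => ?_)
    simp only [InC, Equiv.symm_apply_eq]

theorem hom_conj {X Y : Type} [Fintype X] [Fintype Y] (e : X ≃ Y) {L : X → X → X}
    (h : IsHom κ X L) : IsHom κ Y (conj e L) := by
  refine ⟨latin_conj e h.1, fun r c => ?_⟩
  rw [← h.2 (e.symm r) (e.symm c)]
  refine Finset.card_bij (fun p _ => (e.symm p.1, e.symm p.2)) ?_ ?_ ?_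
  · intro p hp
    rw [Finset.mem_filter] at hp ⊢
    exact ⟨Finset.mem_univ _, (quad_conj e _ _ _ _).1 hp.2⟩
  · rintro ⟨p, p'⟩ _ ⟨q, q'⟩ _ hh
    obtain ⟨h1, h2⟩ := Prod.mk.inj hh
    exact Prod.ext (e.symm.injective h1) (e.symm.injective h2)
  · rintro ⟨p, p'⟩ hp
    rw [Finset.mem_filter] at hp
    refine ⟨(e p, e p'), ?_, by simp⟩
    rw [Finset.mem_filter]
    refine ⟨Finset.mem_univ _, ?_⟩
    rw [quad_conj]
    simpa using hp.2

/-- the cyclic square -/
def cyc (n : ℕ) : ZMod n → ZMod n → ZMod n := fun x y => x + y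

theorem latin_cyc (n : ℕ) : Latin (cyc n) :=
  ⟨fun _ _ _ h => add_left_cancel h, fun _ _ _ h => add_right_cancel h⟩

/-- a covered latin square gives almost all odd multiples of its order -/
theorem null_of_cover {X : Type} [Fintype X] {L : X → X → X} (hX : 0 < Fintype.card X)
    (hL : Latin L) (h : Cover κ X L) : Null (OddMul (Fintype.card X) \ G κ) := by
  obtain ⟨w, f, S⟩ := h.sys hL
  exact null_of_sys _ X L (Finset X × Finset X) w f hX S rfl

/-- multiples of covers -/
theorem Cover.mul {X : Type} {L : X → X → X} (h : Cover κ X L) (g : ℕ) : Cover (g * κ) X L := by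
  obtain ⟨J, _, a, b, c, d, hq, hc⟩ := h
  refine ⟨Fin g × J, inferInstance, fun j => a j.2, fun j => b j.2, fun j => c j.2,
    fun j => d j.2, fun j => hq j.2, fun x y => ?_⟩
  rw [← hc x y]
  have : ((Finset.univ : Finset (Fin g × J)).filter
      (fun j => InC x y (a j.2) (b j.2) (c j.2) (d j.2))) =
      (Finset.univ : Finset (Fin g)) ×ˢ ((Finset.univ : Finset J).filter
        (fun j => InC x y (a j) (b j) (c j) (d j))) := by
    ext j
    simp
  rw [this, Finset.card_product, Finset.card_univ, Fintype.card_fin]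

theorem HCover.mul {K : Type} {P : Option K → Option K → Option K} (h : HCover κ K P) (g : ℕ) :
    HCover (g * κ) K P := by
  obtain ⟨J, _, a, b, c, d, hq, hn, hc⟩ := h
  refine ⟨Fin g × J, inferInstance, fun j => a j.2, fun j => b j.2, fun j => c j.2,
    fun j => d j.2, fun j => hq j.2, fun j => hn j.2, fun x y hxy => ?_⟩
  rw [← hc x y hxy]
  have : ((Finset.univ : Finset (Fin g × J)).filter
      (fun j => InC x y (a j.2) (b j.2) (c j.2) (d j.2))) =
      (Finset.univ : Finset (Fin g)) ×ˢ ((Finset.univ : Finset J).filter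
        (fun j => InC x y (a j) (b j) (c j) (d j))) := by
    ext j
    simp
  rw [this, Finset.card_product, Finset.card_univ, Fintype.card_fin]

/-- covered latin squares of all large odd orders -/
theorem odd_cover (g : ℕ) {n : ℕ} (hn : Odd n) (hn2 : 6851 ≤ n) :
    ∃ (X : Type) (_ : Fintype X) (L : X → X → X), Fintype.card X = n ∧ Latin L ∧
      Cover (g * 4) X L := by
  have h1 : ∀ a < 32, a % 2 = 1 → ∃ u < 32, u % 2 = 1 ∧ (13 * u) % 32 = (a + 16) % 32 := by
    decide
  have hodd : n % 2 = 1 := Nat.odd_iff.1 hn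
  obtain ⟨u, hu, hu2, hu3⟩ := h1 (n % 32) (Nat.mod_lt _ (by norm_num)) (by omega)
  obtain ⟨m, hm⟩ : ∃ m, n = 16 * m + 13 * u := ⟨(n - 13 * u) / 16, by omega⟩
  have hm2 : Odd m := Nat.odd_iff.2 (by omega)
  have ht : 13 * u ≤ m := by omega
  have hm0 : NeZero m := ⟨by omega⟩
  have hu0 : NeZero u := ⟨by omega⟩
  have hcard : Fintype.card (Fin 13 × ZMod u) = 13 * u := by
    rw [Fintype.card_prod, Fintype.card_fin, ZMod.card]
  have e : (Fin 13 × ZMod u) ≃ Fin (13 * u) := Fintype.equivFinOfCardEq hcard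
  have hC : Cover (g * 4) (Fin (13 * u)) (conj e (prodL sq13 (cyc u))) :=
    cover_conj e (cover13.mul g).prod
  have hCl : Latin (conj e (prodL sq13 (cyc u))) :=
    latin_conj e (prodL_latin latin13 (latin_cyc u))
  refine ⟨Pt m (13 * u) (Fin 16), inferInstance,
    comp m (13 * u) sq16 sq17 (conj e (prodL sq13 (cyc u))), ?_, ?_, ?_⟩
  · rw [Fintype.card_sum, Fintype.card_prod, ZMod.card, Fintype.card_fin, Fintype.card_fin, hm]
    ring
  · exact comp_latin hm2 ht latin16 latin17 hCl sq17_none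
  · exact comp_cover ht (cover16.mul g) (hcover17.mul g) hC

theorem cover2 : Cover κ (Fin 2) (fun x y => x + y) := by
  refine ⟨Fin κ, inferInstance, fun _ => 0, fun _ => 0, fun _ => 1, fun _ => 1, ?_, ?_⟩
  · intro _
    exact (by decide : (0 : Fin 2) ≠ 1 ∧ (0 : Fin 2) ≠ 1 ∧ (0 : Fin 2) + 0 = 1 + 1 ∧
      (0 : Fin 2) + 1 = 1 + 0)
  · intro x y
    have h : ∀ j : Fin κ, InC x y (0 : Fin 2) 0 1 1 := by
      intro _
      unfold InC
      constructor <;> omega
    rw [Finset.filter_true_of_mem (fun j _ => h j), Finset.card_univ, Fintype.card_fin]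

theorem even_cover (κ a : ℕ) : ∃ (X : Type) (_ : Fintype X) (L : X → X → X),
    Fintype.card X = 2 ^ (a + 1) ∧ Latin L ∧ Cover κ X L := by
  have : NeZero (2 ^ a) := ⟨by positivity⟩
  refine ⟨Fin 2 × ZMod (2 ^ a), inferInstance, prodL (fun x y => x + y) (cyc (2 ^ a)), ?_, ?_,
    cover2.prod⟩
  · rw [Fintype.card_prod, Fintype.card_fin, ZMod.card]
    ring
  · exact prodL_latin ⟨fun _ _ _ h => add_left_cancel h, fun _ _ _ h => add_right_cancel h⟩
      (latin_cyc _)

theorem null_odd_pow (g : ℕ) : Null (OddMul 1 \ G (g * 4)) := by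
  refine sieve_step (K0 := 6851) one_pos (by norm_num) fun q hq hK => ?_
  rw [one_mul]
  have hodd : Odd q := hq.odd_of_ne_two (by omega)
  obtain ⟨X, _, L, hX, hL, hc⟩ := odd_cover g hodd hK.le
  rw [← hX]
  exact null_of_cover (by omega) hL hc

theorem null_even_pow (κ a : ℕ) : Null (OddMul (2 ^ (a + 1)) \ G κ) := by
  obtain ⟨X, _, L, hX, hL, hc⟩ := even_cover κ a
  rw [← hX]
  exact null_of_cover (by rw [hX]; positivity) hL hc

theorem cnt_mult (d : ℕ) (hd : 0 < d) (E : Set ℕ) (hE : ∀ n ∈ E, d ∣ n) (N : ℕ) :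
    cnt E N ≤ N / d + 1 := by
  unfold cnt
  have h1 : ((Finset.range N).filter (fun n => n ∈ E)) ⊆
      (Finset.range (N / d + 1)).image (fun k => d * k) := by
    intro n hn
    rw [Finset.mem_filter, Finset.mem_range] at hn
    obtain ⟨k, rfl⟩ := hE n hn.2
    rw [Finset.mem_image]
    refine ⟨k, ?_, rfl⟩
    rw [Finset.mem_range, Nat.lt_succ_iff]
    exact (Nat.le_div_iff_mul_le hd).2 (by rw [mul_comm]; exact hn.1.le)
  refine (Finset.card_le_card h1).trans ?_
  refine Finset.card_image_le.trans ?_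
  rw [Finset.card_range]

theorem null_odd (g : ℕ) : Null {n | Odd n ∧ n ∉ G (g * 4)} := by
  refine (null_odd_pow g).mono ?_
  rintro n ⟨h1, h2⟩
  exact ⟨⟨n, h1, (one_mul n).symm⟩, h2⟩

theorem null_even (κ : ℕ) : Null {n | Even n ∧ n ∉ G κ} := by
  apply null_of_approx
  intro ε hε
  obtain ⟨a0, ha0⟩ := exists_pow_lt_of_lt_one (show (0 : ℝ) < ε / 2 by linarith)
    (show (1 / 2 : ℝ) < 1 by norm_num)
  refine ⟨{n | ∃ a ∈ Finset.range a0, n ∈ OddMul (2 ^ (a + 1)) \ G κ}, {n | 2 ^ a0 ∣ n},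
    null_biUnion _ _ (fun a _ => null_even_pow κ a), ?_, ?_⟩
  · rintro n ⟨heven, hn⟩
    by_cases hd : 2 ^ a0 ∣ n
    · right
      exact hd
    · left
      have hn0 : n ≠ 0 := by
        rintro rfl
        exact hd (dvd_zero _)
      obtain ⟨a, M, hM, he⟩ := Nat.exists_eq_two_pow_mul_odd hn0
      obtain ⟨a, rfl⟩ : ∃ a', a = a' + 1 := by
        rcases a with _ | a
        · exfalso
          rw [pow_zero, one_mul] at he
          rw [he] at heven
          exact (Nat.not_even_iff_odd.2 hM) heven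
        · exact ⟨a, rfl⟩
      refine ⟨a, ?_, ⟨M, hM, he⟩, hn⟩
      rw [Finset.mem_range]
      by_contra hle
      apply hd
      rw [he]
      exact Dvd.dvd.mul_right (pow_dvd_pow 2 (by omega)) M
  · obtain ⟨N0, hN0⟩ := exists_nat_ge (2 / ε)
    refine ⟨N0, fun N hN => ?_⟩
    have h1 := cnt_mult (2 ^ a0) (by positivity) {n | 2 ^ a0 ∣ n} (fun n hn => hn) N
    have h2 : (cnt {n | 2 ^ a0 ∣ n} N : ℝ) ≤ (N : ℝ) / (2 ^ a0 : ℕ) + 1 := by
      have h3 : ((N / 2 ^ a0 : ℕ) : ℝ) ≤ (N : ℝ) / (2 ^ a0 : ℕ) := Nat.cast_div_le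
      have h4 : (cnt {n | 2 ^ a0 ∣ n} N : ℝ) ≤ ((N / 2 ^ a0 + 1 : ℕ) : ℝ) := by exact_mod_cast h1
      push_cast at h4 h3 ⊢
      linarith
    refine h2.trans ?_
    have h5 : (N : ℝ) / (2 ^ a0 : ℕ) = (1 / 2 : ℝ) ^ a0 * N := by
      push_cast
      rw [one_div, inv_pow]
      field_simp
    have h6 : (1 / 2 : ℝ) ^ a0 * N ≤ ε / 2 * N :=
      mul_le_mul_of_nonneg_right ha0.le (Nat.cast_nonneg N)
    have h7 : 2 / ε ≤ N := hN0.trans (by exact_mod_cast hN)
    rw [div_le_iff₀ hε] at h7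
    rw [h5]
    linarith

end Pool.Agent.H173M
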