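import Pool.Agent.H173M.Comp2

/-!
# The explicit squares of orders 13, 16 and 17
-/

set_option autoImplicit false

namespace Pool.Agent.H173M


/-- digit `i` in base 32 -/
def dg (N i : ℕ) : ℕ := N / 32 ^ i % 32

/-- the square of order 13 -/
def sq13 (x y : Fin 13) : Fin 13 :=
  ⟨(x.val + dg 5049944041151856745 ((y.val + 13 - x.val) % 13)) % 13, Nat.mod_lt _ (by decide)⟩

/-- rows and columns of its intercalates -/
def e13 (N : ℕ) (j : Fin 13 × Fin 13) : Fin 13 :=
  ⟨(dg N j.1.val + j.2.val) % 13, Nat.mod_lt _ (by decide)⟩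

theorem sq13_row : ∀ r c c' : Fin 13, sq13 r c = sq13 r c' → c = c' := by decide +kernel

theorem sq13_col : ∀ c r r' : Fin 13, sq13 r c = sq13 r' c → r = r' := by decide +kernel

theorem sq13_quad : ∀ j : Fin 13 × Fin 13,
    e13 0 j ≠ e13 5912209366669362209 j ∧ e13 6025851491301001280 j ≠ e13 9523047548683956618 j ∧
    sq13 (e13 0 j) (e13 6025851491301001280 j) =
      sq13 (e13 5912209366669362209 j) (e13 9523047548683956618 j) ∧
    sq13 (e13 0 j) (e13 9523047548683956618 j) =
      sq13 (e13 5912209366669362209 j) (e13 6025851491301001280 j) := by decide +kernel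

theorem sq13_cnt : ∀ x y : Fin 13, ((Finset.univ : Finset (Fin 13 × Fin 13)).filter
    (fun j => (x = e13 0 j ∨ x = e13 5912209366669362209 j) ∧
      (y = e13 6025851491301001280 j ∨ y = e13 9523047548683956618 j))).card = 4 := by
  decide +kernel

/-- decoding -/
def dec17 (n : ℕ) : Option (Fin 16) := if h : n < 16 then some ⟨n, h⟩ else none

/-- encoding -/
def enc17 : Option (Fin 16) → ℕ
  | some i => i.val
  | none => 16

/-- the bordered square of order 17 on numbers -/
def t17 (x y : ℕ) : ℕ :=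
  if x = 16 then (if y = 16 then 16 else (y + 5) % 16)
  else if y = 16 then (x + 2) % 16
  else if dg 568384731037622608377160 ((y + 16 - x) % 16) = 31 then 16
  else (x + dg 568384731037622608377160 ((y + 16 - x) % 16)) % 16

/-- the bordered square of order 17 -/
def sq17 (r c : Option (Fin 16)) : Option (Fin 16) := dec17 (t17 (enc17 r) (enc17 c))

/-- rows and columns of its intercalates -/
def e17 (N : ℕ) (j : (Fin 9 × Fin 16) × Fin 2) : Option (Fin 16) :=
  dec17 (if dg N j.1.1.val = 16 then 16 else (dg N j.1.1.val + j.1.2.val) % 16)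

theorem sq17_none : sq17 none none = none := by decide +kernel

theorem sq17_row : ∀ r c c' : Option (Fin 16), sq17 r c = sq17 r c' → c = c' := by
  decide +kernel

theorem sq17_col : ∀ c r r' : Option (Fin 16), sq17 r c = sq17 r' c → r = r' := by
  decide +kernel

theorem sq17_quad : ∀ j : (Fin 9 × Fin 16) × Fin 2,
    e17 0 j ≠ e17 17838175750209 j ∧ e17 13400304423016 j ≠ e17 15703960960330 j ∧
    sq17 (e17 0 j) (e17 13400304423016 j) =
      sq17 (e17 17838175750209 j) (e17 15703960960330 j) ∧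
    sq17 (e17 0 j) (e17 15703960960330 j) =
      sq17 (e17 17838175750209 j) (e17 13400304423016 j) := by decide +kernel

theorem sq17_avoid : ∀ j : (Fin 9 × Fin 16) × Fin 2,
    ¬ ((none = e17 0 j ∨ none = e17 17838175750209 j) ∧
      (none = e17 13400304423016 j ∨ none = e17 15703960960330 j)) := by decide +kernel

theorem sq17_cnt : ∀ x y : Option (Fin 16), ¬ (x = none ∧ y = none) →
    ((Finset.univ : Finset ((Fin 9 × Fin 16) × Fin 2)).filter
    (fun j => (x = e17 0 j ∨ x = e17 17838175750209 j) ∧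
      (y = e17 13400304423016 j ∨ y = e17 15703960960330 j))).card = 4 := by
  decide +kernel

/-- the cyclic square of order 16 -/
def sq16 (x y : Fin 16) : Fin 16 := x + y

/-- rows and columns of its intercalates -/
def e16 (k : ℕ) (i : Fin 8) : Fin 16 := ⟨(i.val + k) % 16, Nat.mod_lt _ (by decide)⟩

theorem sq16_quad : ∀ j : (Fin 8 × Fin 8) × Fin 4,
    e16 0 j.1.1 ≠ e16 8 j.1.1 ∧ e16 0 j.1.2 ≠ e16 8 j.1.2 ∧
    sq16 (e16 0 j.1.1) (e16 0 j.1.2) = sq16 (e16 8 j.1.1) (e16 8 j.1.2) ∧
    sq16 (e16 0 j.1.1) (e16 8 j.1.2) = sq16 (e16 8 j.1.1) (e16 0 j.1.2) := by decide +kernel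

theorem sq16_cnt : ∀ x y : Fin 16, ((Finset.univ : Finset ((Fin 8 × Fin 8) × Fin 4)).filter
    (fun j => (x = e16 0 j.1.1 ∨ x = e16 8 j.1.1) ∧
      (y = e16 0 j.1.2 ∨ y = e16 8 j.1.2))).card = 4 := by
  decide +kernel

open scoped Classical in
theorem card_InC {J X : Type} [Fintype J] (p : J → Prop) [DecidablePred p] (x y : X)
    (a b c d : J → X) (h : ∀ j, InC x y (a j) (b j) (c j) (d j) ↔ p j)
    (hc : ((Finset.univ : Finset J).filter p).card = 4) :
    ((Finset.univ : Finset J).filter (fun j => InC x y (a j) (b j) (c j) (d j))).card = 4 :=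
  Eq.trans (congrArg Finset.card (Finset.filter_congr fun j _ => h j)) hc

theorem latin13 : Latin sq13 := ⟨fun r _ _ h => sq13_row r _ _ h, fun c _ _ h => sq13_col c _ _ h⟩

theorem latin17 : Latin sq17 := ⟨fun r _ _ h => sq17_row r _ _ h, fun c _ _ h => sq17_col c _ _ h⟩

theorem latin16 : Latin sq16 :=
  ⟨fun _ _ _ h => add_left_cancel h, fun _ _ _ h => add_right_cancel h⟩

theorem cover13 : Cover 4 (Fin 13) sq13 := by
  refine ⟨Fin 13 × Fin 13, inferInstance, e13 0, e13 6025851491301001280,
    e13 5912209366669362209, e13 9523047548683956618, ?_, ?_⟩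
  · intro j
    exact sq13_quad j
  · intro x y
    exact card_InC _ x y _ _ _ _ (fun _ => by unfold InC; exact Iff.rfl) (sq13_cnt x y)

theorem cover16 : Cover 4 (Fin 16) sq16 := by
  refine ⟨(Fin 8 × Fin 8) × Fin 4, inferInstance, fun j => e16 0 j.1.1, fun j => e16 0 j.1.2,
    fun j => e16 8 j.1.1, fun j => e16 8 j.1.2, ?_, ?_⟩
  · intro j
    exact sq16_quad j
  · intro x y
    exact card_InC _ x y _ _ _ _ (fun _ => by unfold InC; exact Iff.rfl) (sq16_cnt x y)

theorem hcover17 : HCover 4 (Fin 16) sq17 := by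
  refine ⟨(Fin 9 × Fin 16) × Fin 2, inferInstance, e17 0, e17 13400304423016,
    e17 17838175750209, e17 15703960960330, ?_, ?_, ?_⟩
  · intro j
    exact sq17_quad j
  · intro j
    exact sq17_avoid j
  · intro x y hxy
    exact card_InC _ x y _ _ _ _ (fun _ => by unfold InC; exact Iff.rfl) (sq17_cnt x y hxy)

end Pool.Agent.H173M
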