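import Pool.Agent.H173M.Base2
import Pool.Agent.H173M.Comp3

/-!
# Doubling a square and refilling the hole
-/

set_option autoImplicit false

namespace Pool.Agent.H173M

open Finset
open scoped Classical

variable {κ : ℕ}

section
variable {A D : Type}

/-- the double of `Q` with the subsquare replaced by `C0` -/
def dbl (Q : A ⊕ D → A ⊕ D → A ⊕ D) (C0 : ZMod 2 × D → ZMod 2 × D → ZMod 2 × D) :
    ZMod 2 × (A ⊕ D) → ZMod 2 × (A ⊕ D) → ZMod 2 × (A ⊕ D)
  | (i, Sum.inr u), (j, Sum.inr v) => ((C0 (i, u) (j, v)).1, Sum.inr (C0 (i, u) (j, v)).2)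
  | (i, Sum.inl a), (j, q) => (i + j, Q (Sum.inl a) q)
  | (i, Sum.inr u), (j, Sum.inl b) => (i + j, Q (Sum.inr u) (Sum.inl b))

variable {Q : A ⊕ D → A ⊕ D → A ⊕ D} {C0 : ZMod 2 × D → ZMod 2 × D → ZMod 2 × D}

theorem dbl_off (i j : ZMod 2) {p q : A ⊕ D} (h : NH p q) :
    dbl Q C0 (i, p) (j, q) = (i + j, Q p q) := by
  rcases p with a | u
  · rfl
  · rcases q with b | v
    · rfl
    · exact absurd ⟨⟨u, rfl⟩, ⟨v, rfl⟩⟩ h

theorem dbl_in (p q : ZMod 2 × D) : dbl Q C0 (p.1, Sum.inr p.2) (q.1, Sum.inr q.2) =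
    ((C0 p q).1, Sum.inr (C0 p q).2) := rfl

theorem off_of_sub [Finite D] (hQ : Latin Q) {D0 : D → D → D} (hD : Latin D0)
    (h : ∀ u v, Q (Sum.inr u) (Sum.inr v) = Sum.inr (D0 u v)) :
    (∀ u a, ∃ k, Q (Sum.inr u) (Sum.inl a) = Sum.inl k) ∧
    (∀ a u, ∃ k, Q (Sum.inl a) (Sum.inr u) = Sum.inl k) := by
  constructor
  · intro u a
    rcases ho : Q (Sum.inr u) (Sum.inl a) with k | w
    · exact ⟨k, rfl⟩
    · exfalso
      obtain ⟨v, hv⟩ := (Finite.injective_iff_surjective.1 (hD.1 u)) w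
      have h1 : Q (Sum.inr u) (Sum.inl a) = Q (Sum.inr u) (Sum.inr v) := by
        rw [h, hv, ho]
      exact absurd (hQ.1 _ h1) (by simp)
  · intro a u
    rcases ho : Q (Sum.inl a) (Sum.inr u) with k | w
    · exact ⟨k, rfl⟩
    · exfalso
      obtain ⟨v, hv⟩ := (Finite.injective_iff_surjective.1 (hD.2 u)) w
      have h1 : Q (Sum.inl a) (Sum.inr u) = Q (Sum.inr v) (Sum.inr u) := by
        rw [h, ho]
        exact congrArg Sum.inr hv.symm
      exact absurd (hQ.2 _ h1) (by simp)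

theorem dbl_latin (hQ : Latin Q) (hC : Latin C0)
    (q1 : ∀ u a, ∃ k, Q (Sum.inr u) (Sum.inl a) = Sum.inl k)
    (q2 : ∀ a u, ∃ k, Q (Sum.inl a) (Sum.inr u) = Sum.inl k) : Latin (dbl Q C0) := by
  constructor
  · rintro ⟨i, p⟩ ⟨j, q⟩ ⟨j', q'⟩ hh
    rcases p with a | u
    · simp only [dbl, Prod.mk.injEq] at hh
      exact Prod.ext (add_left_cancel hh.1) (hQ.1 _ hh.2)
    · rcases q with b | v <;> rcases q' with b' | v'
      · simp only [dbl, Prod.mk.injEq] at hh
        exact Prod.ext (add_left_cancel hh.1) (hQ.1 _ hh.2)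
      · obtain ⟨k, hk⟩ := q1 u b
        simp only [dbl, Prod.mk.injEq, hk] at hh
        exact absurd hh.2 (by simp)
      · obtain ⟨k, hk⟩ := q1 u b'
        simp only [dbl, Prod.mk.injEq, hk] at hh
        exact absurd hh.2 (by simp)
      · simp only [dbl, Prod.mk.injEq, Sum.inr.injEq] at hh
        have h2 : C0 (i, u) (j, v) = C0 (i, u) (j', v') := Prod.ext hh.1 hh.2
        have h3 := hC.1 _ h2
        rw [Prod.mk.injEq] at h3
        rw [h3.1, h3.2]
  · rintro ⟨j, q⟩ ⟨i, p⟩ ⟨i', p'⟩ hh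
    simp only at hh
    rcases q with b | v
    · rcases p with a | u <;> rcases p' with a' | u' <;>
        simp only [dbl, Prod.mk.injEq] at hh <;>
        exact Prod.ext (add_right_cancel hh.1) (hQ.2 _ hh.2)
    · rcases p with a | u <;> rcases p' with a' | u'
      · simp only [dbl, Prod.mk.injEq] at hh
        exact Prod.ext (add_right_cancel hh.1) (hQ.2 _ hh.2)
      · obtain ⟨k, hk⟩ := q2 a v
        simp only [dbl, Prod.mk.injEq, hk] at hh
        exact absurd hh.2 (by simp)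
      · obtain ⟨k, hk⟩ := q2 a' v
        simp only [dbl, Prod.mk.injEq, hk] at hh
        exact absurd hh.2 (by simp)
      · simp only [dbl, Prod.mk.injEq, Sum.inr.injEq] at hh
        have h2 : C0 (i, u) (j, v) = C0 (i', u') (j, v) := Prod.ext hh.1 hh.2
        have h3 := hC.2 _ h2
        rw [Prod.mk.injEq] at h3
        rw [h3.1, h3.2]

theorem zmod2_cases (i : ZMod 2) : i = 0 ∨ i = 1 := by
  revert i
  decide

theorem dbl_subCover [Fintype A] [Fintype D] (hC : IsHom κ (ZMod 2 × D) C0) :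
    SubCover κ C0 (dbl Q C0) (fun p => (p.1, Sum.inr p.2)) := by
  obtain ⟨JC, _, aC, bC, cC, dC, qC, nC, oC⟩ := hom_subCover hC
  refine ⟨JC ⊕ ({z : (A ⊕ D) × (A ⊕ D) // NH z.1 z.2} × Fin κ), inferInstance,
    Sum.elim (fun j => ((aC j).1, Sum.inr (aC j).2)) (fun j => (0, j.1.1.1)),
    Sum.elim (fun j => ((bC j).1, Sum.inr (bC j).2)) (fun j => (0, j.1.1.2)),
    Sum.elim (fun j => ((cC j).1, Sum.inr (cC j).2)) (fun j => (1, j.1.1.1)),
    Sum.elim (fun j => ((dC j).1, Sum.inr (dC j).2)) (fun j => (1, j.1.1.2)), ?_, ?_, ?_⟩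
  · rintro (j | ⟨⟨⟨p, q⟩, hz⟩, i⟩)
    · simp only [Sum.elim_inl]
      obtain ⟨h1, h2, h3, h4⟩ := qC j
      refine ⟨fun hh => h1 ?_, fun hh => h2 ?_, ?_, ?_⟩
      · simp only [Prod.mk.injEq, Sum.inr.injEq] at hh
        exact Prod.ext hh.1 hh.2
      · simp only [Prod.mk.injEq, Sum.inr.injEq] at hh
        exact Prod.ext hh.1 hh.2
      · rw [dbl_in, dbl_in, h3]
      · rw [dbl_in, dbl_in, h4]
    · simp only [Sum.elim_inr]
      refine ⟨fun hh => ?_, fun hh => ?_, ?_, ?_⟩
      · exact absurd (Prod.mk.inj hh).1 (by decide)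
      · exact absurd (Prod.mk.inj hh).1 (by decide)
      · rw [dbl_off _ _ hz, dbl_off _ _ hz]
        rfl
      · rw [dbl_off _ _ hz, dbl_off _ _ hz]
        rfl
  · rintro ⟨i, p⟩ ⟨j, q⟩
    rw [card_filter_sum]
    by_cases hn : NH p q
    · rw [card_filter_none, card_filter_single _ ⟨(p, q), hn⟩ (fun _ => True)]
      · simp
      · rintro ⟨⟨p', q'⟩, hz⟩ k
        simp only [Sum.elim_inr, InC, Prod.mk.injEq, Subtype.mk.injEq, and_true]
        constructor
        · rintro ⟨h1, h2⟩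
          constructor
          · rcases h1 with h1 | h1 <;> exact h1.2.symm
          · rcases h2 with h2 | h2 <;> exact h2.2.symm
        · rintro ⟨rfl, rfl⟩
          exact ⟨(zmod2_cases i).imp (fun h => ⟨h, rfl⟩) (fun h => ⟨h, rfl⟩),
            (zmod2_cases j).imp (fun h => ⟨h, rfl⟩) (fun h => ⟨h, rfl⟩)⟩
      · rintro k ⟨h1, h2⟩
        apply hn
        simp only [Sum.elim_inl, Prod.mk.injEq] at h1 h2
        constructor
        · rcases h1 with h1 | h1 <;> exact ⟨_, h1.2⟩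
        · rcases h2 with h2 | h2 <;> exact ⟨_, h2.2⟩
    · unfold NH at hn
      rw [not_not] at hn
      obtain ⟨⟨u, rfl⟩, ⟨v, rfl⟩⟩ := hn
      rw [card_filter_none (J := ({z : (A ⊕ D) × (A ⊕ D) // NH z.1 z.2} × Fin κ)), add_zero]
      · rw [← nC (i, u) (j, v)]
        refine congrArg Finset.card (Finset.filter_congr fun k _ => ?_)
        simp only [Sum.elim_inl, InC, Prod.ext_iff, Sum.inr.injEq]
      · rintro ⟨⟨⟨p', q'⟩, hz⟩, k⟩ ⟨h1, h2⟩
        apply hz
        simp only [Sum.elim_inr, Prod.mk.injEq] at h1 h2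
        constructor
        · rcases h1 with h1 | h1 <;> exact ⟨_, h1.2.symm⟩
        · rcases h2 with h2 | h2 <;> exact ⟨_, h2.2.symm⟩
  · intro u v u' v' hq
    have hqC : Quad C0 u v u' v' := by
      obtain ⟨h1, h2, h3, h4⟩ := hq
      simp only [dbl_in, Prod.mk.injEq, Sum.inr.injEq] at h3 h4
      refine ⟨fun hh => h1 (by rw [hh]), fun hh => h2 (by rw [hh]), Prod.ext h3.1 h3.2,
        Prod.ext h4.1 h4.2⟩
    rw [card_filter_sum, card_filter_none (J := ({z : (A ⊕ D) × (A ⊕ D) // NH z.1 z.2} × Fin κ)),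
      add_zero]
    · rw [← oC u v u' v' hqC]
      refine congrArg Finset.card (Finset.filter_congr fun k _ => ?_)
      simp only [Sum.elim_inl, SameP, Prod.ext_iff, Sum.inr.injEq]
    · rintro ⟨⟨⟨p', q'⟩, hz⟩, k⟩ ⟨h1, h2⟩
      apply hz
      simp only [Sum.elim_inr, SameP, Prod.mk.injEq] at h1 h2
      constructor
      · rcases h1 with h1 | h1 <;> exact ⟨_, h1.1.2⟩
      · rcases h2 with h2 | h2 <;> exact ⟨_, h2.1.2⟩

end

/-- the square of order 2 with a corner -/
def pU : Option Unit → Option Unit → Option Unit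
  | none, none => none
  | some _, some _ => none
  | some _, none => some ()
  | none, some _ => some ()

theorem pU_row : ∀ r c c' : Option Unit, pU r c = pU r c' → c = c' := by decide

theorem pU_col : ∀ c r r' : Option Unit, pU r c = pU r' c → r = r' := by decide

/-- the square of order 3 with a corner -/
def pT : Option (Fin 2) → Option (Fin 2) → Option (Fin 2)
  | none, x => x
  | some x, none => some x
  | some x, some y => if x = y then some (x + 1) else none

theorem pT_row : ∀ r c c' : Option (Fin 2), pT r c = pT r c' → c = c' := by decide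

theorem pT_col : ∀ c r r' : Option (Fin 2), pT r c = pT r' c → r = r' := by decide

end Pool.Agent.H173M
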