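import Pool.Agent.H173M.Comp5
import Pool.Agent.H173M.Sub

/-!
# The exact composition, concretely
-/

set_option autoImplicit false

namespace Pool.Agent.H173M

open Finset
open scoped Classical

variable {κ : ℕ}

theorem hom_sym {X : Type} [Fintype X] {L : X → X → X} (h : IsHom κ X L) {σ : X → X}
    (hσ : Function.Injective σ) : IsHom κ X (fun a b => σ (L a b)) := by
  refine ⟨⟨fun r c c' hh => h.1.1 r (hσ hh), fun c r r' hh => h.1.2 c (hσ hh)⟩, fun r c => ?_⟩
  rw [← h.2 r c]
  refine congrArg Finset.card (Finset.filter_congr fun p _ => ?_)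
  unfold Quad
  simp only [hσ.eq_iff]

theorem four_eq : ∀ c a b : ℕ, 3 * 4 ^ c = 4 ^ a + 2 * 4 ^ b → a = c ∧ b = c := by
  intro c
  induction c with
  | zero =>
    intro a b h
    rcases a with _ | a
    · rcases b with _ | b
      · exact ⟨rfl, rfl⟩
      · exfalso
        have : 0 < 4 ^ b := by positivity
        rw [pow_succ] at h
        simp at h
        omega
    · exfalso
      have h1 : 0 < 4 ^ a := by positivity
      have h2 : 0 < 4 ^ b := by positivity
      rw [pow_succ] at h
      simp at h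
      omega
  | succ c ih =>
    intro a b h
    rcases a with _ | a
    · exfalso
      rw [pow_succ] at h
      simp at h
      omega
    · rcases b with _ | b
      · exfalso
        rw [pow_succ, pow_succ] at h
        simp at h
        omega
      · rw [pow_succ, pow_succ, pow_succ] at h
        have := ih a b (by omega)
        exact ⟨by rw [this.1], by rw [this.2]⟩

theorem exact_G {Y : Type} [Fintype Y] {C0 : Y → Y → Y} (hC0 : IsHom κ Y C0) {k m t : ℕ}
    (hN : k + Fintype.card Y ∈ GC κ C0) (hk : k ∈ G κ) (ht : Odd t) (ht3 : 3 ≤ t)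
    (hm : Nat.Coprime m 30) (hm4 : 3 * 4 ^ t < m) : k * m + Fintype.card Y * t ∈ G κ := by
  obtain ⟨X, _, L, s, hX, hL, hs, he⟩ := hN
  have : NeZero m := ⟨by omega⟩
  have : NeZero t := ⟨by omega⟩
  have : Fact (1 < t) := ⟨by omega⟩
  let K : Type := {x : X // ¬ x ∈ Set.range s}
  let e : X ≃ K ⊕ Y := ((Equiv.sumCompl (fun x => x ∈ Set.range s)).symm).trans
    ((Equiv.sumComm _ _).trans (Equiv.sumCongr (Equiv.refl _) (Equiv.ofInjective s hs).symm))
  have hes : ∀ u, e.symm (Sum.inr u) = s u := fun u => rfl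
  have hes2 : ∀ u, e (s u) = Sum.inr u := by
    intro u
    rw [← hes, Equiv.apply_symm_apply]
  have hcK : Fintype.card K = k := by
    have h1 := Fintype.card_congr e
    rw [Fintype.card_sum, hX] at h1
    exact (Nat.add_right_cancel h1).symm
  have hP : IsHom κ (K ⊕ Y) (conj e L) := hom_conj e hL
  have hPs : ∀ u v : Y, conj e L (Sum.inr u) (Sum.inr v) = Sum.inr (C0 u v) := by
    intro u v
    unfold conj
    rw [hes, hes, he, hes2]
  obtain ⟨X', _, L', hX', hL'⟩ := hk
  have e' : X' ≃ K := Fintype.equivOfCardEq (by rw [hX', hcK])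
  have hZ : IsHom κ K (conj e' L') := hom_conj e' hL'
  -- the hole square
  have u2t : IsUnit (2 : ZMod t) := by
    have := (ZMod.isUnit_iff_coprime 2 t).2 (Nat.coprime_two_left.2 ht)
    simpa using this
  obtain ⟨i2, hi2⟩ := u2t.exists_right_inv
  have hC := hom_mul hC0 ht
  have hσ : Function.Injective (fun p : Y × ZMod t => (p.1, p.2 * i2 + 1)) := by
    rintro ⟨p, q⟩ ⟨p', q'⟩ hh
    obtain ⟨h1, h2⟩ := Prod.mk.inj hh
    have h3 : q * i2 = q' * i2 := add_right_cancel h2
    have h4 : q = q' := by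
      calc q = 2 * i2 * q := by rw [hi2, one_mul]
        _ = 2 * (q * i2) := by ring
        _ = 2 * (q' * i2) := by rw [h3]
        _ = 2 * i2 * q' := by ring
        _ = q' := by rw [hi2, one_mul]
    exact Prod.ext h1 h4
  have hCC := hom_sym hC hσ
  -- units
  have hu : ∀ j : ℕ, j ∣ 30 → IsUnit ((j : ℕ) : ZMod m) := by
    intro j hj
    exact (ZMod.isUnit_iff_coprime j m).2 (Nat.Coprime.coprime_dvd_left hj hm.symm)
  have hlt : ∀ h : ZMod t, 4 ^ h.val ≤ 4 ^ t := fun h =>
    Nat.pow_le_pow_right (by norm_num) (ZMod.val_lt h).le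
  have hD : Dat (ZMod m) (ZMod t) K (Y) (fun h => ((4 ^ h.val : ℕ) : ZMod m)) (conj e' L')
      (conj e L) (fun x y => ((fun p : Y × ZMod t => (p.1, p.2 * i2 + 1))
        (tw C0 (fun _ _ => 1) (fun _ _ => 0) x y))) := by
    constructor
    · have := hu 2 (by norm_num)
      simpa using this
    · have := hu 3 (by norm_num)
      simpa using this
    · have := hu 5 (by norm_num)
      simpa using this
    · intro h h' hh
      simp only at hh
      rw [ZMod.natCast_eq_natCast_iff'] at hh
      have h1 := hlt h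
      have h2 := hlt h'
      rw [Nat.mod_eq_of_lt (by omega), Nat.mod_eq_of_lt (by omega)] at hh
      exact ZMod.val_injective t (Nat.pow_right_injective (le_refl 2 |>.trans (by norm_num)) hh)
    · intro a b' c hh
      have h1 := hlt a
      have h2 := hlt b'
      have h3 := hlt c
      have h4 : ((3 * 4 ^ c.val : ℕ) : ZMod m) = ((4 ^ a.val + 2 * 4 ^ b'.val : ℕ) : ZMod m) := by
        push_cast
        push_cast at hh
        exact hh
      rw [ZMod.natCast_eq_natCast_iff'] at h4
      have h5 : 4 ^ c.val ≤ 4 ^ (t - 1) := Nat.pow_le_pow_right (by norm_num)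
        (by have := ZMod.val_lt c; omega)
      rw [Nat.mod_eq_of_lt (by omega), Nat.mod_eq_of_lt (by omega)] at h4
      obtain ⟨h6, h7⟩ := four_eq _ _ _ h4
      exact ⟨ZMod.val_injective t h6, ZMod.val_injective t h7⟩
    · exact hZ.1
    · exact hP.1
    · exact hCC.1
    · intro u j
      rcases ho : conj e L (Sum.inr u) (Sum.inl j) with k' | w
      · exact ⟨k', rfl⟩
      · exfalso
        obtain ⟨v, hv⟩ := (Finite.injective_iff_surjective.1 (hC0.1.1 u)) w
        have h1 : conj e L (Sum.inr u) (Sum.inl j) = conj e L (Sum.inr u) (Sum.inr v) := by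
          rw [hPs, hv, ho]
        exact absurd (hP.1.1 _ h1) (by simp)
    · intro i u
      rcases ho : conj e L (Sum.inl i) (Sum.inr u) with k' | w
      · exact ⟨k', rfl⟩
      · exfalso
        obtain ⟨v, hv⟩ := (Finite.injective_iff_surjective.1 (hC0.1.2 u)) w
        have h1 : conj e L (Sum.inl i) (Sum.inr u) = conj e L (Sum.inr v) (Sum.inr u) := by
          rw [hPs, ho]
          exact congrArg Sum.inr hv.symm
        exact absurd (hP.1.2 _ h1) (by simp)
    · intro ρ γ ρ' γ' hq hn
      refine ⟨?_, ?_, ?_⟩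
      · rintro ⟨⟨u, rfl⟩, ⟨v, rfl⟩⟩
        obtain ⟨u', v', h1, h2⟩ := closed_sub hP hC0 Sum.inr_injective hPs hq.swap
        exact hn ⟨⟨u', h1⟩, ⟨v', h2⟩⟩
      · rintro ⟨⟨u, rfl⟩, ⟨v, rfl⟩⟩
        obtain ⟨u', v', h1, h2⟩ := closed_sub hP hC0 Sum.inr_injective hPs hq.col
        exact hn ⟨⟨u, rfl⟩, ⟨v', h2⟩⟩
      · rintro ⟨⟨u, rfl⟩, ⟨v, rfl⟩⟩
        obtain ⟨u', v', h1, h2⟩ := closed_sub hP hC0 Sum.inr_injective hPs hq.row
        exact hn ⟨⟨u', h1⟩, ⟨v, rfl⟩⟩
    · intro u v h
      simp only [tw]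
      intro hh
      have h1 : (h + 1 * h + 0) * i2 = h := by
        have : (h + 1 * h + 0) * i2 = (2 * i2) * h := by ring
        rw [this, hi2, one_mul]
      rw [h1] at hh
      exact one_ne_zero (add_eq_left.1 hh)
  have := c3_hom hD hZ hP hCC
  refine ⟨_, inferInstance, _, ?_, this⟩
  rw [Fintype.card_sum, Fintype.card_prod, Fintype.card_prod, ZMod.card, ZMod.card,
    hcK]
  ring

end Pool.Agent.H173M
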