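import Pool.Agent.H173M.Final

/-!
# Latin squares of order `n`, their intercalates, homogeneity
-/

set_option autoImplicit false

namespace Pool.Agent.H173M

variable {κ : ℕ}

/-- `L` is a latin square of order `n` -/
def IsLatinSquare {n : ℕ} (L : Fin n → Fin n → Fin n) : Prop :=
  (∀ r, Function.Bijective (L r)) ∧ ∀ c, Function.Bijective fun r => L r c

/-- the intercalates of `L`, as sets of four cells -/
def intercalates {n : ℕ} (L : Fin n → Fin n → Fin n) : Set (Set (Fin n × Fin n)) :=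
  {S | ∃ r₁ r₂ c₁ c₂, r₁ ≠ r₂ ∧ c₁ ≠ c₂ ∧ L r₁ c₁ = L r₂ c₂ ∧ L r₁ c₂ = L r₂ c₁ ∧
    S = {(r₁, c₁), (r₁, c₂), (r₂, c₁), (r₂, c₂)}}

/-- every cell of `L` lies in exactly `h` intercalates -/
def IsHomogeneous (h : ℕ) {n : ℕ} (L : Fin n → Fin n → Fin n) : Prop :=
  ∀ x : Fin n × Fin n, {S | S ∈ intercalates L ∧ x ∈ S}.ncard = h

/-- there is an `h`-homogeneous latin square of order `n` -/
def HasHomogeneous (h n : ℕ) : Prop :=
  ∃ L : Fin n → Fin n → Fin n, IsLatinSquare L ∧ IsHomogeneous h L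

open scoped Classical in
/-- the number of intercalates through a cell -/
theorem ncard_cell {n : ℕ} (L : Fin n → Fin n → Fin n) (r c : Fin n) :
    {S | S ∈ intercalates L ∧ (r, c) ∈ S}.ncard =
      ((Finset.univ : Finset (Fin n × Fin n)).filter (fun p => Quad L r c p.1 p.2)).card := by
  have hset : {S | S ∈ intercalates L ∧ (r, c) ∈ S} =
      (fun p : Fin n × Fin n => ({(r, c), (r, p.2), (p.1, c), (p.1, p.2)} :
        Set (Fin n × Fin n))) ''
        (((Finset.univ : Finset (Fin n × Fin n)).filter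
          (fun p => Quad L r c p.1 p.2) : Finset (Fin n × Fin n)) : Set (Fin n × Fin n)) := by
    ext S
    constructor
    · rintro ⟨⟨r1, r2, c1, c2, h1, h2, h3, h4, hS⟩, hx⟩
      rw [hS] at hx
      simp only [Set.mem_insert_iff, Set.mem_singleton_iff, Prod.mk.injEq] at hx
      have hq : Quad L r1 c1 r2 c2 := ⟨h1, h2, h3, h4⟩
      rcases hx with ⟨rfl, rfl⟩ | ⟨rfl, rfl⟩ | ⟨rfl, rfl⟩ | ⟨rfl, rfl⟩
      · refine ⟨(r2, c2), by simpa using hq, ?_⟩
        rw [hS]
      · refine ⟨(r2, c1), by simpa using hq.col, ?_⟩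
        rw [hS]
        ext x
        simp only [Set.mem_insert_iff, Set.mem_singleton_iff]
        tauto
      · refine ⟨(r1, c2), by simpa using hq.row, ?_⟩
        rw [hS]
        ext x
        simp only [Set.mem_insert_iff, Set.mem_singleton_iff]
        tauto
      · refine ⟨(r1, c1), by simpa using hq.swap, ?_⟩
        rw [hS]
        ext x
        simp only [Set.mem_insert_iff, Set.mem_singleton_iff]
        tauto
    · rintro ⟨p, hp, rfl⟩
      have hq : Quad L r c p.1 p.2 := by simpa using hp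
      exact ⟨⟨r, p.1, c, p.2, hq.1, hq.2.1, hq.2.2.1, hq.2.2.2, rfl⟩, by simp⟩
  rw [hset, Set.InjOn.ncard_image, Set.ncard_coe_finset]
  intro p hp q hq' hpq
  have hq1 : Quad L r c p.1 p.2 := by simpa using hp
  have hmem : (p.1, p.2) ∈ ({(r, c), (r, q.2), (q.1, c), (q.1, q.2)} :
      Set (Fin n × Fin n)) := by
    have h1 : (p.1, p.2) ∈ ({(r, c), (r, p.2), (p.1, c), (p.1, p.2)} :
      Set (Fin n × Fin n)) := by simp
    have h2 : ({(r, c), (r, p.2), (p.1, c), (p.1, p.2)} : Set (Fin n × Fin n)) =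
      {(r, c), (r, q.2), (q.1, c), (q.1, q.2)} := hpq
    rw [h2] at h1
    exact h1
  simp only [Set.mem_insert_iff, Set.mem_singleton_iff, Prod.mk.injEq] at hmem
  rcases hmem with h1 | h1 | h1 | h1
  · exact absurd h1.1.symm hq1.1
  · exact absurd h1.1.symm hq1.1
  · exact absurd h1.2.symm hq1.2.1
  · exact Prod.ext h1.1 h1.2

theorem homog_of_hom {n : ℕ} {L : Fin n → Fin n → Fin n} (h : IsHom κ (Fin n) L) :
    IsHomogeneous κ L := by
  rintro ⟨r, c⟩
  rw [ncard_cell]
  exact h.2 r c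

theorem hom_of_homog {n : ℕ} {L : Fin n → Fin n → Fin n} (hl : IsLatinSquare L)
    (h : IsHomogeneous κ L) : IsHom κ (Fin n) L := by
  refine ⟨⟨fun r => (hl.1 r).1, fun c => (hl.2 c).1⟩, fun r c => ?_⟩
  rw [← ncard_cell]
  exact h (r, c)

theorem has_of_G {n : ℕ} (h : n ∈ G κ) : HasHomogeneous κ n := by
  obtain ⟨X, _, L, hX, hL⟩ := h
  have e : X ≃ Fin n := Fintype.equivFinOfCardEq hX
  have h1 := hom_conj e hL
  refine ⟨conj e L, ⟨fun r => ?_, fun c => ?_⟩, homog_of_hom h1⟩
  · exact Finite.injective_iff_bijective.1 (h1.1.1 r)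
  · exact Finite.injective_iff_bijective.1 (h1.1.2 c)

open scoped Classical in
theorem card_le_cnt (E : Set ℕ) (s : Finset ℕ) (N : ℕ) (hs : ∀ n ∈ s, n < N ∧ n ∈ E) :
    s.card ≤ cnt E N := by
  unfold cnt
  apply Finset.card_le_card
  intro n hn
  rw [Finset.mem_filter, Finset.mem_range]
  exact hs n hn

open scoped Classical in
theorem card_two {α : Type} (S : Finset α) (p : α → Prop) [DecidablePred p] (τ : α → α)
    (h1 : ∀ a ∈ S, τ a ∈ S) (h2 : ∀ a ∈ S, τ (τ a) = a) (h3 : ∀ a ∈ S, p (τ a) ↔ ¬ p a) :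
    S.card = 2 * (S.filter p).card := by
  rw [← Finset.card_filter_add_card_filter_not (s := S) p]
  have : (S.filter (fun a => ¬ p a)).card = (S.filter p).card := by
    refine Finset.card_bij' (fun a _ => τ a) (fun a _ => τ a) ?_ ?_ ?_ ?_
    · intro a ha
      rw [Finset.mem_filter] at ha ⊢
      exact ⟨h1 a ha.1, (h3 a ha.1).2 ha.2⟩
    · intro a ha
      rw [Finset.mem_filter] at ha ⊢
      exact ⟨h1 a ha.1, fun hh => ((h3 a ha.1).1 hh) ha.2⟩
    · intro a ha
      exact h2 a (Finset.mem_filter.1 ha).1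
    · intro a ha
      exact h2 a (Finset.mem_filter.1 ha).1
  omega

open scoped Classical in
/-- the total number of intercalates is an integer -/
theorem four_dvd {n : ℕ} {L : Fin n → Fin n → Fin n} (h : IsHom κ (Fin n) L) :
    4 ∣ n * n * κ := by
  set S := (Finset.univ : Finset ((Fin n × Fin n) × (Fin n × Fin n))).filter
    (fun q => Quad L q.1.1 q.1.2 q.2.1 q.2.2) with hS
  have hmem : ∀ q, q ∈ S ↔ Quad L q.1.1 q.1.2 q.2.1 q.2.2 := by
    intro q
    rw [hS]
    simp
  have hcard : S.card = n * n * κ := by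
    rw [hS, Finset.card_filter, Fintype.sum_prod_type]
    have : ∀ a : Fin n × Fin n, (∑ b : Fin n × Fin n,
        if Quad L (a, b).1.1 (a, b).1.2 (a, b).2.1 (a, b).2.2 then 1 else 0) = κ := by
      intro a
      rw [← h.2 a.1 a.2, Finset.card_filter]
    rw [Finset.sum_congr rfl fun a _ => this a, Finset.sum_const, Finset.card_univ,
      Fintype.card_prod, Fintype.card_fin, smul_eq_mul]
  have e1 := card_two S (fun q => q.1.1 < q.2.1) (fun q => ((q.2.1, q.1.2), (q.1.1, q.2.2)))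
    (fun q hq => (hmem _).2 ((hmem q).1 hq).row) (fun q _ => rfl) (fun q hq => by
      have := ((hmem q).1 hq).1
      simp only [not_lt]
      exact ⟨le_of_lt, fun hh => lt_of_le_of_ne hh this.symm⟩)
  have e2 := card_two (S.filter (fun q => q.1.1 < q.2.1)) (fun q => q.1.2 < q.2.2)
    (fun q => ((q.1.1, q.2.2), (q.2.1, q.1.2)))
    (fun q hq => by
      rw [Finset.mem_filter] at hq ⊢
      exact ⟨(hmem _).2 ((hmem q).1 hq.1).col, hq.2⟩) (fun q _ => rfl) (fun q hq => by
      have := ((hmem q).1 (Finset.mem_filter.1 hq).1).2.1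
      simp only [not_lt]
      exact ⟨le_of_lt, fun hh => lt_of_le_of_ne hh this.symm⟩)
  rw [← hcard]
  omega

theorem necessary {n : ℕ} (h : HasHomogeneous κ n) : Even n ∨ 4 ∣ κ := by
  obtain ⟨L, h1, h2⟩ := h
  have h3 := four_dvd (hom_of_homog h1 h2)
  rcases Nat.even_or_odd n with hn | hn
  · exact Or.inl hn
  · right
    have h4 : Nat.Coprime 4 (n * n) := by
      have h5 : Nat.Coprime (2 ^ 2) (n * n) :=
        Nat.Coprime.pow_left 2 (Nat.Coprime.mul_right (Nat.coprime_two_left.2 hn)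
          (Nat.coprime_two_left.2 hn))
      simpa using h5
    exact h4.dvd_of_dvd_mul_left h3

end Pool.Agent.H173M
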