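import Pool.Agent.H173M.Core

/-!
# The two kinds of steps: emptying a colour class and splitting a colour class
-/

set_option autoImplicit false

namespace Pool.Agent.H173M

open Finset
open scoped Classical

variable {κ : ℕ}

section
variable {X R : Type} [CommRing R] [Fintype R] {β γ : X → X → R}

theorem inner_unit {x y : X} {i j : R} {s : X × X} (hu : IsUnit (β x s.2 + β s.1 s.2))
    (W : ℕ) : (∑ t : R × R, if Lift β γ x y i j s t then W else 0) = W := by
  obtain ⟨t0, h⟩ := lift_unique (γ := γ) (x := x) (y := y) (i := i) (j := j) (s := s) hu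
  rw [Finset.sum_eq_single t0]
  · rw [if_pos ((h t0).2 rfl)]
  · intro t _ ht
    rw [if_neg (fun hh => ht ((h t).1 hh))]
  · intro hh
    exact absurd (Finset.mem_univ _) hh

/-- in a killed class there are no lifts -/
theorem no_lift {x y : X} {i j : R} {s : X × X} {t : R × R}
    (h1 : β x y + β s.1 y = 0) (h2 : β x s.2 + β s.1 s.2 = 0)
    (h3 : γ x y + γ s.1 y ≠ γ x s.2 + γ s.1 s.2) : ¬ Lift β γ x y i j s t := by
  rintro ⟨h4, h5⟩
  apply h3
  linear_combination h4 - h5 - j * h1 + t.2 * h2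

/-- lifts in a split class -/
theorem lift_split {x y : X} {i j : R} {s : X × X} {t : R × R}
    (h1 : β x y + β s.1 y = 0) (h2 : β x s.2 + β s.1 s.2 = 0) :
    Lift β (fun _ _ => 0) x y i j s t ↔ i + β x y * j = t.1 + β s.1 s.2 * t.2 := by
  unfold Lift
  constructor
  · rintro ⟨h4, _⟩
    simpa using h4
  · intro h4
    refine ⟨by simpa using h4, ?_⟩
    linear_combination h4 - j * h1 + t.2 * h2

end

section
variable {X : Type} [Fintype X] {L : X → X → X} {ι : Type} {w : ι → ℕ}
  {f : X → X → X → X → ι}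

theorem tw_quad' {R : Type} [CommRing R] {β γ : X → X → R} (hL : Latin L)
    (hβ : ∀ x y, IsUnit (β x y)) (h2 : IsUnit (2 : R)) (a b a' b' : X × R) :
    Quad (tw L β γ) a b a' b' ↔
      Quad L a.1 b.1 a'.1 b'.1 ∧ Lift β γ a.1 b.1 a.2 b.2 (a'.1, b'.1) (a'.2, b'.2) := by
  obtain ⟨x, i⟩ := a
  obtain ⟨y, j⟩ := b
  obtain ⟨x', i'⟩ := a'
  obtain ⟨y', j'⟩ := b'
  exact tw_quad hL hβ h2

theorem sys_kill (S : Sys κ X L ι w f) (i0 : ι) (hw : w i0 = 0) {R : Type} [CommRing R]
    [Fintype R] {β γ : X → X → R} (hβ : ∀ x y, IsUnit (β x y)) (h2 : IsUnit (2 : R))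
    (hP2 : ∀ x y x' y', Quad L x y x' y' → f x y x' y' = i0 → β x y + β x' y = 0)
    (hP3 : ∀ x y x' y', Quad L x y x' y' → f x y x' y' ≠ i0 → IsUnit (β x y + β x' y))
    (hP4 : ∀ x y x' y', Quad L x y x' y' → f x y x' y' = i0 →
      γ x y + γ x' y ≠ γ x y' + γ x' y') :
    Sys κ (X × R) (tw L β γ) ι (Function.update w i0 1)
      (fun a b a' b' => f a.1 b.1 a'.1 b'.1) := by
  have hP2' : ∀ x y x' y', Quad L x y x' y' → f x y x' y' = i0 → β x y' + β x' y' = 0 := by
    intro x y x' y' h hf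
    refine hP2 x y' x' y h.col ?_
    rw [← S.s2 _ _ _ _ h, hf]
  have hP3' : ∀ x y x' y', Quad L x y x' y' → f x y x' y' ≠ i0 →
      IsUnit (β x y' + β x' y') := by
    intro x y x' y' h hf
    refine hP3 x y' x' y h.col ?_
    rw [← S.s2 _ _ _ _ h]
    exact hf
  have hno : ∀ a b a' b' : X × R, Quad (tw L β γ) a b a' b' →
      f a.1 b.1 a'.1 b'.1 ≠ i0 := by
    intro a b a' b' h hf
    obtain ⟨h3, h4⟩ := (tw_quad' S.lat hβ h2 a b a' b').1 h
    exact no_lift (hP2 _ _ _ _ h3 hf) (hP2' _ _ _ _ h3 hf) (hP4 _ _ _ _ h3 hf) h4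
  constructor
  · exact tw_latin S.lat hβ
  · intro a b a' b' h
    exact S.s1 _ _ _ _ ((tw_quad' S.lat hβ h2 _ _ _ _).1 h).1
  · intro a b a' b' h
    exact S.s2 _ _ _ _ ((tw_quad' S.lat hβ h2 _ _ _ _).1 h).1
  · intro a b a1 b1 a2 b2 h h' hf
    obtain ⟨h3, h4⟩ := (tw_quad' S.lat hβ h2 _ _ _ _).1 h
    obtain ⟨h5, h6⟩ := (tw_quad' S.lat hβ h2 _ _ _ _).1 h'
    have hx : a1.1 = a2.1 := S.mt _ _ _ _ _ _ h3 h5 hf
    have hy : b1.1 = b2.1 := by
      rw [← hx] at h5
      exact h3.col_unique S.lat h5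
    have hu := hP3' _ _ _ _ h3 (hno _ _ _ _ h)
    obtain ⟨t0, ht⟩ := lift_unique (γ := γ) (x := a.1) (y := b.1) (i := a.2) (j := b.2)
      (s := (a1.1, b1.1)) hu
    rw [← hx, ← hy] at h6
    have h7 := (ht _).1 h4
    have h8 := (ht _).1 h6
    have h9 : a1.2 = a2.2 := by
      have := h7.trans h8.symm
      exact (Prod.mk.inj this).1
    exact Prod.ext hx h9
  · intro a b
    rw [sum_prod4]
    rw [← S.tot a.1 b.1]
    refine Finset.sum_congr rfl fun s _ => ?_
    by_cases hq : Quad L a.1 b.1 s.1 s.2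
    · rw [if_pos hq]
      by_cases hf : f a.1 b.1 s.1 s.2 = i0
      · rw [hf, hw]
        refine Finset.sum_eq_zero fun t _ => ?_
        rw [if_neg]
        intro h
        exact hno _ _ _ _ h hf
      · have hu := hP3' _ _ _ _ hq hf
        rw [← inner_unit (γ := γ) (x := a.1) (y := b.1) (i := a.2) (j := b.2) (s := s) hu
          (w (f a.1 b.1 s.1 s.2))]
        refine Finset.sum_congr rfl fun t _ => ?_
        have hiff := tw_quad' (γ := γ) S.lat hβ h2 a b (s.1, t.1) (s.2, t.2)
        by_cases hl : Lift β γ a.1 b.1 a.2 b.2 s t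
        · rw [if_pos hl, if_pos (hiff.2 ⟨hq, hl⟩), Function.update_of_ne hf]
        · rw [if_neg hl, if_neg (fun h => hl (hiff.1 h).2)]
    · rw [if_neg hq]
      refine Finset.sum_eq_zero fun t _ => ?_
      rw [if_neg]
      intro h
      exact hq ((tw_quad' S.lat hβ h2 _ _ _ _).1 h).1

/-- the colouring after splitting the class `i0` -/
noncomputable def splitCol (ℓ : X → ℕ) (i0 : ι) (f : X → X → X → X → ι) (R : Type) [CommRing R] :
    X × R → X × R → X × R → X × R → ι ⊕ R :=
  fun a b a' b' => if f a.1 b.1 a'.1 b'.1 = i0 then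
    Sum.inr (if ℓ a.1 < ℓ a'.1 then a'.2 - a.2 else a.2 - a'.2)
    else Sum.inl (f a.1 b.1 a'.1 b'.1)

theorem sys_split (S : Sys κ X L ι w f) (i0 : ι) {ℓ : X → ℕ} (hℓ : Function.Injective ℓ)
    {R : Type} [CommRing R] [Fintype R] {β : X → X → R} (W : Finset R) (hW : W.card = w i0)
    (hβ : ∀ x y, IsUnit (β x y)) (h2 : IsUnit (2 : R))
    (hP2 : ∀ x y x' y', Quad L x y x' y' → f x y x' y' = i0 → β x y + β x' y = 0)
    (hP3 : ∀ x y x' y', Quad L x y x' y' → f x y x' y' ≠ i0 → IsUnit (β x y + β x' y)) :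
    Sys κ (X × R) (tw L β (fun _ _ => 0)) (ι ⊕ R)
      (Sum.elim (Function.update w i0 1) (fun g => if g ∈ W then 1 else 0))
      (splitCol ℓ i0 f R) := by
  have hP2' : ∀ x y x' y', Quad L x y x' y' → f x y x' y' = i0 → β x y' + β x' y' = 0 := by
    intro x y x' y' h hf
    refine hP2 x y' x' y h.col ?_
    rw [← S.s2 _ _ _ _ h, hf]
  have hP3' : ∀ x y x' y', Quad L x y x' y' → f x y x' y' ≠ i0 →
      IsUnit (β x y' + β x' y') := by
    intro x y x' y' h hf
    refine hP3 x y' x' y h.col ?_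
    rw [← S.s2 _ _ _ _ h]
    exact hf
  constructor
  · exact tw_latin S.lat hβ
  · intro a b a' b' h
    obtain ⟨h3, h4⟩ := (tw_quad' S.lat hβ h2 _ _ _ _).1 h
    have hs := S.s1 _ _ _ _ h3
    unfold splitCol
    rw [← hs]
    by_cases hf : f a.1 b.1 a'.1 b'.1 = i0
    · rw [if_pos hf, if_pos hf]
      congr 1
      have hne : ℓ a.1 ≠ ℓ a'.1 := fun hh => h3.1 (hℓ hh)
      rcases lt_or_gt_of_ne hne with hlt | hlt
      · rw [if_pos hlt, if_neg (not_lt.2 hlt.le)]
      · rw [if_neg (not_lt.2 hlt.le), if_pos hlt]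
    · rw [if_neg hf, if_neg hf]
  · intro a b a' b' h
    obtain ⟨h3, h4⟩ := (tw_quad' S.lat hβ h2 _ _ _ _).1 h
    have hs := S.s2 _ _ _ _ h3
    unfold splitCol
    rw [← hs]
  · intro a b a1 b1 a2 b2 h h' hf
    obtain ⟨h3, h4⟩ := (tw_quad' S.lat hβ h2 _ _ _ _).1 h
    obtain ⟨h5, h6⟩ := (tw_quad' S.lat hβ h2 _ _ _ _).1 h'
    unfold splitCol at hf
    by_cases hf1 : f a.1 b.1 a1.1 b1.1 = i0
    · by_cases hf2 : f a.1 b.1 a2.1 b2.1 = i0
      · rw [if_pos hf1, if_pos hf2] at hf
        have hx : a1.1 = a2.1 := S.mt _ _ _ _ _ _ h3 h5 (hf1.trans hf2.symm)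
        rw [← hx] at hf
        have hf' := Sum.inr_injective hf
        refine Prod.ext hx ?_
        split_ifs at hf' with hlt
        · exact sub_left_injective hf'
        · exact sub_right_injective hf'
      · rw [if_pos hf1, if_neg hf2] at hf
        exact absurd hf (by simp)
    · by_cases hf2 : f a.1 b.1 a2.1 b2.1 = i0
      · rw [if_neg hf1, if_pos hf2] at hf
        exact absurd hf (by simp)
      · rw [if_neg hf1, if_neg hf2] at hf
        have hx : a1.1 = a2.1 := S.mt _ _ _ _ _ _ h3 h5 (Sum.inl_injective hf)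
        have hy : b1.1 = b2.1 := by
          rw [← hx] at h5
          exact h3.col_unique S.lat h5
        have hu := hP3' _ _ _ _ h3 hf1
        obtain ⟨t0, ht⟩ := lift_unique (γ := fun _ _ => (0 : R)) (x := a.1) (y := b.1)
          (i := a.2) (j := b.2) (s := (a1.1, b1.1)) hu
        rw [← hx, ← hy] at h6
        have h7 := (ht _).1 h4
        have h8 := (ht _).1 h6
        have h9 : a1.2 = a2.2 := by
          have := h7.trans h8.symm
          exact (Prod.mk.inj this).1
        exact Prod.ext hx h9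
  · intro a b
    rw [sum_prod4]
    rw [← S.tot a.1 b.1]
    refine Finset.sum_congr rfl fun s _ => ?_
    by_cases hq : Quad L a.1 b.1 s.1 s.2
    · rw [if_pos hq]
      by_cases hf : f a.1 b.1 s.1 s.2 = i0
      · rw [hf]
        have e1 := hP2 _ _ _ _ hq hf
        have e2 := hP2' _ _ _ _ hq hf
        rw [Fintype.sum_prod_type]
        have key : ∀ i' : R, (∑ j' : R, if Quad (tw L β fun _ _ => 0) a b (s.1, i') (s.2, j')
            then Sum.elim (Function.update w i0 1) (fun g => if g ∈ W then 1 else 0)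
              (splitCol ℓ i0 f R a b (s.1, i') (s.2, j')) else 0) =
            if (if ℓ a.1 < ℓ s.1 then i' - a.2 else a.2 - i') ∈ W then 1 else 0 := by
          intro i'
          obtain ⟨u, hu⟩ := hβ s.1 s.2
          rw [Finset.sum_eq_single ((↑u⁻¹ : R) * (a.2 + β a.1 b.1 * b.2 - i'))]
          · rw [if_pos]
            · unfold splitCol
              rw [if_pos hf]
              rfl
            · refine (tw_quad' S.lat hβ h2 _ _ _ _).2 ⟨hq, ?_⟩
              refine (lift_split e1 e2).2 ?_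
              rw [← hu, ← mul_assoc, Units.mul_inv, one_mul]
              ring
          · intro j' _ hj'
            rw [if_neg]
            intro h
            apply hj'
            have h3 := (lift_split e1 e2).1 ((tw_quad' S.lat hβ h2 _ _ _ _).1 h).2
            simp only at h3
            rw [h3, ← hu]
            rw [add_sub_cancel_left, ← mul_assoc, Units.inv_mul, one_mul]
          · intro hh
            exact absurd (Finset.mem_univ _) hh
        rw [Finset.sum_congr rfl fun i' _ => key i', ← hW]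
        rw [Finset.card_eq_sum_ones, ← Finset.sum_filter]
        refine Finset.sum_bij' (fun i' _ => if ℓ a.1 < ℓ s.1 then i' - a.2 else a.2 - i')
          (fun g _ => if ℓ a.1 < ℓ s.1 then g + a.2 else a.2 - g) ?_ ?_ ?_ ?_ ?_
        · intro i' hi'
          exact (Finset.mem_filter.1 hi').2
        · intro g hg
          refine Finset.mem_filter.2 ⟨Finset.mem_univ _, ?_⟩
          split_ifs with hlt
          · simpa using hg
          · simpa using hg
        · intro i' _
          split_ifs with hlt <;> ring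
        · intro g _
          split_ifs with hlt <;> ring
        · intro i' _
          rfl
      · have hu := hP3' _ _ _ _ hq hf
        rw [← inner_unit (γ := fun _ _ => (0 : R)) (x := a.1) (y := b.1) (i := a.2) (j := b.2)
          (s := s) hu (w (f a.1 b.1 s.1 s.2))]
        refine Finset.sum_congr rfl fun t _ => ?_
        have hiff := tw_quad' (γ := fun _ _ => (0 : R)) S.lat hβ h2 a b (s.1, t.1) (s.2, t.2)
        by_cases hl : Lift β (fun _ _ => (0 : R)) a.1 b.1 a.2 b.2 s t
        · rw [if_pos hl, if_pos (hiff.2 ⟨hq, hl⟩)]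
          unfold splitCol
          rw [if_neg hf]
          simp only [Sum.elim_inl]
          rw [Function.update_of_ne hf]
        · rw [if_neg hl, if_neg (fun h => hl (hiff.1 h).2)]
    · rw [if_neg hq]
      refine Finset.sum_eq_zero fun t _ => ?_
      rw [if_neg]
      intro h
      exact hq ((tw_quad' S.lat hβ h2 _ _ _ _).1 h).1

end

end Pool.Agent.H173M
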